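import Pool.Agent.Lib.MP_9a7843_ag_D.Cell

/-!
# MP_9a7843_ag, block D, module Mult: functions with prescribed orders, finiteness, polynomials
-/

noncomputable section

open MvPolynomial Classical

namespace MP9a7843

variable {k : Type*} [Field k] [CharZero k] {K : Type*} [Field K] [Algebra k K] {σ : Type*}
  [Fintype σ] {x : σ → K} {A : ValuationSubring K}

/-- A nonzero function has nonzero order at finitely many of the discrete valuation rings that are
etale over `k[x]`.

Proof.  `φ = P / Q`.  By `exists_isLocAt_of_etale`, `A` is the localisation at an irreducible `π`,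
and `ord A φ ≠ 0` implies `π ∣ P Q` (`IsLocAt.val_eq_one`), so `π` is associated to one of the
finitely many normalised factors of `P Q` (`UniqueFactorizationMonoid.factors`), and `A` is
determined by `π` up to association (`IsLocAt.of_associated`, `IsLocAt.unique`). -/
theorem finite_ord_ne (hx : AlgebraicIndependent k x)
    (hg : IntermediateField.adjoin k (Set.range x) = ⊤) {φ : K} (hφ : φ ≠ 0) :
    {A : ValuationSubring K | IsDVRof k A ∧ EtaleAt k A x ∧ ord A φ ≠ 0}.Finite := by
  obtain ⟨P, Q, hQ, -, hPQ⟩ := exists_frac_coprime hx hg φ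
  have hQ' : aeval x Q ≠ 0 := aeval_ne_zero hx hQ
  have hP : P ≠ 0 := by
    intro h0
    rw [h0, map_zero, zero_div] at hPQ
    exact hφ hPQ
  have h0 : P * Q ≠ 0 := mul_ne_zero hP hQ
  refine Set.Finite.subset (Set.Finite.biUnion
    (Finset.finite_toSet (UniqueFactorizationMonoid.factors (P * Q)).toFinset)
    (t := fun q => {A : ValuationSubring K | IsLocAt x q A})
    (fun q _ => Set.Subsingleton.finite fun A hA B hB => IsLocAt.unique hA hB)) ?_
  rintro A ⟨hA, he, ho⟩
  obtain ⟨π, hπ, hloc⟩ := exists_isLocAt_of_etale hx hg hA he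
  have hdvd : π ∣ P * Q := by
    by_contra hcon
    have h1 : ¬ π ∣ P := fun h => hcon (h.mul_right Q)
    have h2 : ¬ π ∣ Q := fun h => hcon (h.mul_left P)
    refine ho (hA.ord_eq_of_val ?_)
    rw [hPQ, map_div₀, IsLocAt.val_eq_one hx hloc hπ h1, IsLocAt.val_eq_one hx hloc hπ h2,
      div_one]
  obtain ⟨q, hq, hassoc⟩ := UniqueFactorizationMonoid.exists_mem_factors_of_dvd h0 hπ hdvd
  refine Set.mem_iUnion₂.2 ⟨q, ?_, IsLocAt.of_associated hloc hassoc⟩
  exact Finset.mem_coe.2 (Multiset.mem_toFinset.2 hq)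

/-- Realization: an integer function with finite support on the discrete valuation rings that are
etale over `k[x]` is the order of a function.

Proof.  For `A` let `π_A` be as in `exists_isLocAt_of_etale`; `ord A π_A = 1`, and
`ord B π_A = 0` for `B ≠ A` (otherwise `π_B ∣ π_A`, associated, `B = A`).  `φ = Π_A π_A(x)^(n A)`
over the support. -/
theorem exists_ord_eq (hx : AlgebraicIndependent k x)
    (hg : IntermediateField.adjoin k (Set.range x) = ⊤) (n : ValuationSubring K → ℤ)
    (hn : {A : ValuationSubring K | IsDVRof k A ∧ EtaleAt k A x ∧ n A ≠ 0}.Finite) :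
    ∃ φ : K, φ ≠ 0 ∧ ∀ A : ValuationSubring K, IsDVRof k A → EtaleAt k A x → n A = ord A φ := by
  have hπ : ∀ A : ValuationSubring K, ∃ π : MvPolynomial σ k, IsDVRof k A → EtaleAt k A x →
      Irreducible π ∧ IsLocAt x π A := by
    intro A
    by_cases h : IsDVRof k A ∧ EtaleAt k A x
    · obtain ⟨π, h1, h2⟩ := exists_isLocAt_of_etale hx hg h.1 h.2
      exact ⟨π, fun _ _ => ⟨h1, h2⟩⟩
    · exact ⟨0, fun h1 h2 => absurd ⟨h1, h2⟩ h⟩
  choose π hπ using hπ
  have hne : ∀ A ∈ hn.toFinset, (aeval x (π A)) ^ (n A) ≠ 0 := by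
    intro A hA
    have hA' := hn.mem_toFinset.1 hA
    exact zpow_ne_zero _ (aeval_ne_zero hx (hπ A hA'.1 hA'.2.1).1.ne_zero)
  refine ⟨∏ A ∈ hn.toFinset, (aeval x (π A)) ^ (n A), Finset.prod_ne_zero_iff.2 hne, ?_⟩
  intro B hB hBe
  obtain ⟨hB1, hB2⟩ := hπ B hB hBe
  rw [hB.ord_prod _ _ hne]
  have h1 : ∀ A ∈ hn.toFinset, ord B ((aeval x (π A)) ^ (n A)) = if A = B then n A else 0 := by
    intro A hA
    have hA' := hn.mem_toFinset.1 hA
    obtain ⟨hA1, hA2⟩ := hπ A hA'.1 hA'.2.1
    rw [hB.ord_zpow]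
    by_cases hAB : A = B
    · subst hAB
      rw [if_pos rfl, (IsLocAt.isUnif hx hB2 hB1).ord_self, mul_one]
    · rw [if_neg hAB]
      have h2 : ¬ π B ∣ π A := by
        intro h3
        exact hAB (IsLocAt.unique hA2
          (IsLocAt.of_associated hB2 (hB1.associated_of_dvd hA1 h3)))
      rw [hB.ord_eq_of_val (IsLocAt.val_eq_one hx hB2 hB1 h2), mul_zero]
  rw [Finset.sum_congr rfl h1, Finset.sum_ite_eq' hn.toFinset B n]
  by_cases hnB : n B = 0
  · rw [hnB, ite_self]
  · rw [if_pos (hn.mem_toFinset.2 ⟨hB, hBe, hnB⟩)]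

/-- A function which is regular at all discrete valuation rings that are etale over `k[x]` is a
polynomial.

Proof.  `φ = P / Q` in lowest terms (`exists_frac_coprime`).  If `Q` has an irreducible factor `π`,
let `A = k[x]_(π)` (`exists_isLocAt`): `φ = P' / Q'` with `π ∤ Q'`, `P Q' = P' Q`, so `π ∣ P`,
contradiction.  So `Q` is a unit of the polynomial ring, a constant. -/
theorem exists_poly (hx : AlgebraicIndependent k x)
    (hg : IntermediateField.adjoin k (Set.range x) = ⊤) {φ : K}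
    (h : ∀ A : ValuationSubring K, IsDVRof k A → EtaleAt k A x → φ ∈ A) :
    ∃ P : MvPolynomial σ k, φ = aeval x P := by
  obtain ⟨P, Q, hQ, hrel, hPQ⟩ := exists_frac_coprime hx hg φ
  have hQ' : aeval x Q ≠ 0 := aeval_ne_zero hx hQ
  have hu : IsUnit Q := by
    by_contra hcon
    obtain ⟨π, hπ, hdvd⟩ := WfDvdMonoid.exists_irreducible_factor hcon hQ
    obtain ⟨A, hA⟩ := exists_isLocAt hx hg hπ
    have hmem := h A (IsLocAt.isDVRof hx hA hπ) (IsLocAt.etaleAt hx hA hπ)
    obtain ⟨P', Q', hnd, heq⟩ := (hA φ).1 hmem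
    have hQ0 : Q' ≠ 0 := fun h0 => hnd (h0 ▸ dvd_zero π)
    have hQ0' : aeval x Q' ≠ 0 := aeval_ne_zero hx hQ0
    rw [hPQ, div_eq_div_iff hQ' hQ0', ← map_mul, ← map_mul] at heq
    have h1 : P * Q' = P' * Q := aeval_inj hx heq
    have h2 : π ∣ P * Q' := h1 ▸ hdvd.mul_left P'
    have h3 : π ∣ P := (hπ.prime.dvd_or_dvd h2).resolve_right hnd
    exact hπ.not_isUnit (hrel h3 hdvd)
  obtain ⟨R, hR⟩ := hu.exists_right_inv
  refine ⟨P * R, ?_⟩
  have h1 : aeval x Q * aeval x R = 1 := by rw [← map_mul, hR, map_one]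
  rw [hPQ, map_mul, div_eq_iff hQ', mul_assoc, mul_comm (aeval x R), h1, mul_one]

end MP9a7843
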