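import Mathlib

/-!
# MP_9a7843_ag, block D, module Tr: transcendence degree, homomorphisms out of purely transcendental
extensions
-/

noncomputable section

open MvPolynomial Classical

namespace MP9a7843

variable {k : Type*} [Field k] {K : Type*} [Field K] [Algebra k K] {σ τ : Type*}

theorem isAlgebraic_of_adjoin_eq_top {x : σ → K}
    (hg : IntermediateField.adjoin k (Set.range x) = ⊤) :
    Algebra.IsAlgebraic (IntermediateField.adjoin k (Set.range x)) K := by
  refine ⟨fun a => ?_⟩
  have ha : a ∈ IntermediateField.adjoin k (Set.range x) := by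
    rw [hg]
    exact IntermediateField.mem_top
  exact isAlgebraic_algebraMap (⟨a, ha⟩ : IntermediateField.adjoin k (Set.range x))

open scoped IntermediateField.algebraAdjoinAdjoin in
private theorem tr_alg {x : σ → K}
    (hxa : Algebra.IsAlgebraic (IntermediateField.adjoin k (Set.range x)) K) :
    Algebra.IsAlgebraic (Algebra.adjoin k (Set.range x)) K :=
  (IsFractionRing.comap_isAlgebraic_iff (A := Algebra.adjoin k (Set.range x))
    (K := IntermediateField.adjoin k (Set.range x)) (C := K)).2 hxa

/-- If `K` is algebraic over `k(x)` and over `k(y)`, `x` is algebraically independent and `y` has at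
most as many elements as `x`, then `y` is algebraically independent (compare
`MP9a7843.IsGenX.indep_cell` in `MP_9a7843_ag_X/Cells.lean`:
`Algebra.IsAlgebraic.isTranscendenceBasis_of_lift_le_trdeg_of_finite`,
`IsTranscendenceBasis.lift_cardinalMk_eq_trdeg`). -/
theorem algebraicIndependent_of_card [Fintype σ] [Fintype τ] {x : σ → K} {y : τ → K}
    (hx : AlgebraicIndependent k x)
    (hxa : Algebra.IsAlgebraic (IntermediateField.adjoin k (Set.range x)) K)
    (hya : Algebra.IsAlgebraic (IntermediateField.adjoin k (Set.range y)) K)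
    (h : Fintype.card τ ≤ Fintype.card σ) : AlgebraicIndependent k y := by
  have h1 := tr_alg hxa
  have h2 := tr_alg hya
  have hxb : IsTranscendenceBasis k x := hx.isTranscendenceBasis_iff_isAlgebraic.2 h1
  have h3 := hxb.lift_cardinalMk_eq_trdeg
  have h4 : Algebra.trdeg k K = Fintype.card σ := by
    rw [← Cardinal.lift_inj, ← h3, Cardinal.mk_fintype]
    simp
  refine (Algebra.IsAlgebraic.isTranscendenceBasis_of_lift_le_trdeg_of_finite k y ?_).1
  rw [h4, Cardinal.mk_fintype]
  simpa using h

/-- Elements of `k(x)` are quotients of polynomials in `x`. -/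
theorem exists_frac {x : σ → K} (hg : IntermediateField.adjoin k (Set.range x) = ⊤) (a : K) :
    ∃ P Q : MvPolynomial σ k, aeval x Q ≠ 0 ∧ a = aeval x P / aeval x Q := by
  have ha : a ∈ IntermediateField.adjoin k (Set.range x) := by
    rw [hg]
    exact IntermediateField.mem_top
  obtain ⟨P, Q, h⟩ := (IntermediateField.mem_adjoin_range_iff k x a).1 ha
  by_cases hQ : aeval x Q = 0
  · refine ⟨0, 1, ?_, ?_⟩
    · rw [map_one]
      exact one_ne_zero
    · rw [h, hQ, div_zero, map_zero, zero_div]
  · exact ⟨P, Q, hQ, h⟩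

/-- Polynomials in algebraically independent elements. -/
theorem aeval_ne_zero {x : σ → K} (hx : AlgebraicIndependent k x) {P : MvPolynomial σ k}
    (hP : P ≠ 0) : aeval x P ≠ 0 := fun h =>
  hP ((algebraicIndependent_iff.1 hx) P h)

theorem aeval_inj {x : σ → K} (hx : AlgebraicIndependent k x) {P Q : MvPolynomial σ k}
    (h : aeval x P = aeval x Q) : P = Q :=
  (algebraicIndependent_iff_injective_aeval.1 hx) h

/-- Elements of `K = k(x)` in lowest terms (the polynomial ring is factorial). -/
theorem exists_frac_coprime [Finite σ] {x : σ → K} (hx : AlgebraicIndependent k x)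
    (hg : IntermediateField.adjoin k (Set.range x) = ⊤) (a : K) :
    ∃ P Q : MvPolynomial σ k, Q ≠ 0 ∧ IsRelPrime P Q ∧ a = aeval x P / aeval x Q := by
  obtain ⟨P, Q, hQ, h⟩ := exists_frac hg a
  have hQ0 : Q ≠ 0 := fun h0 => hQ (by rw [h0, map_zero])
  obtain ⟨P', Q', d, h1, h2, h3⟩ := UniqueFactorizationMonoid.exists_reduced_factors' P Q hQ0
  have hd : aeval x d ≠ 0 := fun h0 => hQ (by rw [← h3, map_mul, h0, zero_mul])
  refine ⟨P', Q', fun h0 => hQ0 (by rw [← h3, h0, mul_zero]), h1, ?_⟩
  rw [h, ← h2, ← h3, map_mul, map_mul, mul_div_mul_left _ _ hd]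

/-- Homomorphisms out of a purely transcendental extension (`K` is the field of fractions of the
polynomial ring: `IsFractionRing.lift`, or
`AlgebraicIndependent.aevalEquivField` and `IntermediateField.topEquiv`). -/
theorem exists_algHom {L : Type*} [Field L] [Algebra k L] {x : σ → K} {y : σ → L}
    (hx : AlgebraicIndependent k x) (hg : IntermediateField.adjoin k (Set.range x) = ⊤)
    (hy : AlgebraicIndependent k y) : ∃ i : K →ₐ[k] L, ∀ s, i (x s) = y s := by
  obtain ⟨e, he⟩ : ∃ e : K ≃ₐ[k] IntermediateField.adjoin k (Set.range x),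
      ∀ a, ((e a : IntermediateField.adjoin k (Set.range x)) : K) = a := by
    refine ⟨(IntermediateField.topEquiv.symm.trans (IntermediateField.equivOfEq hg.symm)),
      fun a => rfl⟩
  refine ⟨(IntermediateField.val _).comp ((hy.aevalEquivField.toAlgHom.comp
    hx.aevalEquivField.symm.toAlgHom).comp e.toAlgHom), fun s => ?_⟩
  have h1 : hx.aevalEquivField.symm (e (x s)) = algebraMap _ _ (X s : MvPolynomial σ k) := by
    rw [AlgEquiv.symm_apply_eq]
    apply Subtype.ext
    rw [he, hx.aevalEquivField_algebraMap_apply_coe, aeval_X]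
  change ((hy.aevalEquivField (hx.aevalEquivField.symm (e (x s))) :
    IntermediateField.adjoin k (Set.range y)) : L) = y s
  rw [h1, hy.aevalEquivField_algebraMap_apply_coe, aeval_X]

theorem exists_algEquiv {L : Type*} [Field L] [Algebra k L] {x : σ → K} {y : σ → L}
    (hx : AlgebraicIndependent k x) (hg : IntermediateField.adjoin k (Set.range x) = ⊤)
    (hy : AlgebraicIndependent k y) (hg' : IntermediateField.adjoin k (Set.range y) = ⊤) :
    ∃ i : K ≃ₐ[k] L, ∀ s, i (x s) = y s := by
  obtain ⟨i, hi⟩ := exists_algHom hx hg hy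
  refine ⟨AlgEquiv.ofBijective i ⟨i.toRingHom.injective, ?_⟩, hi⟩
  have h1 : i.fieldRange = ⊤ := by
    rw [eq_top_iff, ← hg', IntermediateField.adjoin_le_iff]
    rintro _ ⟨s, rfl⟩
    exact ⟨x s, hi s⟩
  intro b
  have hb : b ∈ i.fieldRange := by
    rw [h1]
    exact IntermediateField.mem_top
  exact hb

end MP9a7843
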