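import Pool.Agent.Lib.MP_9a7843_ag_D.Ord

/-!
# MP_9a7843_ag, block D, module Krull: a noetherian integrally closed domain is the intersection of
discrete valuation rings
-/

noncomputable section

open Classical

namespace MP9a7843

variable {k : Type*} [Field k] {K : Type*} [Field K] [Algebra k K]

private theorem krull_frac (R : Subalgebra k K)
    (hfr : ∀ x : K, ∃ r ∈ R, ∃ s ∈ R, s ≠ 0 ∧ x = r / s) : IsFractionRing R K := by
  refine IsFractionRing.of_field R K fun z => ?_
  obtain ⟨r, hr, s, hs, -, h⟩ := hfr z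
  exact ⟨⟨r, hr⟩, ⟨s, hs⟩, h⟩

/-- the ideal of the denominators of `g` -/
private def krull_I (R : Subalgebra k K) (g : K) : Ideal R where
  carrier := {x | (x : K) * g ∈ R}
  add_mem' := by
    intro x y hx hy
    have h : ((x + y : R) : K) * g = x * g + y * g := by
      push_cast
      ring
    change ((x + y : R) : K) * g ∈ R
    rw [h]
    exact R.add_mem hx hy
  zero_mem' := by
    change ((0 : R) : K) * g ∈ R
    rw [ZeroMemClass.coe_zero, zero_mul]
    exact R.zero_mem
  smul_mem' := by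
    intro x y hy
    have h : ((x • y : R) : K) * g = x * (y * g) := by
      rw [smul_eq_mul]
      push_cast
      ring
    change ((x • y : R) : K) * g ∈ R
    rw [h]
    exact R.mul_mem x.2 hy

private theorem mem_krull_I {R : Subalgebra k K} {g : K} {x : R} :
    x ∈ krull_I R g ↔ (x : K) * g ∈ R := Iff.rfl

/-- Step 1.  There are a prime ideal `p`, `c ∈ R` and `t ∈ p` such that, for `g = c a`,
`g p ⊂ R`, `g ∉ R` and `t g ∉ p`.

Proof.  For `c ∈ R` with `c a ∉ R` the ideal `I_c = {x ∈ R | x c a ∈ R}` is proper and contains a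
nonzero element (a denominator of `a`).  Take a maximal one `p = I_c` (`R` noetherian).
It is prime: if `x y ∈ p`, `y ∉ p` then `y c a ∉ R`, `I_{yc} ⊃ p` is proper, so `I_{yc} = p`, and
`x ∈ I_{yc}`.
If `g p ⊂ p` then `p` is a finitely generated faithful `R`-submodule of `K` with `g p ⊂ p`, so
`g` is integral over `R` (`isIntegral_of_smul_mem_submodule`), so `g ∈ R`, contradiction. -/
theorem krull_step (R : Subalgebra k K) [IsNoetherianRing R] [IsIntegrallyClosed R]
    (hfr : ∀ x : K, ∃ r ∈ R, ∃ s ∈ R, s ≠ 0 ∧ x = r / s) {a : K} (ha : a ∉ R) :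
    ∃ (p : Ideal R) (c : R) (t : R), p.IsPrime ∧ (∀ x : R, x ∈ p ↔ (x : K) * (c * a) ∈ R) ∧
      (c : K) * a ∉ R ∧ t ∈ p ∧ t ≠ 0 ∧ ∀ y : R, (y : K) = t * (c * a) → y ∉ p := by
  have := krull_frac R hfr
  let S : Set (Ideal R) := {J | ∃ c : R, (c : K) * a ∉ R ∧ J = krull_I R (c * a)}
  have hS : S.Nonempty := ⟨_, 1, by rwa [OneMemClass.coe_one, one_mul], rfl⟩
  obtain ⟨p, ⟨c, hca, hpc⟩, hmax⟩ := wellFounded_gt.has_min S hS
  have hmem : ∀ x : R, x ∈ p ↔ (x : K) * (c * a) ∈ R := fun x => by rw [hpc, mem_krull_I]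
  have hprime : p.IsPrime := by
    refine ⟨fun h => ?_, fun {x y} hxy => ?_⟩
    · have h1 : (1 : R) ∈ p := by
        rw [h]
        trivial
      rw [hmem, OneMemClass.coe_one, one_mul] at h1
      exact hca h1
    · by_contra hcon
      rw [not_or] at hcon
      have h1 : ((y * c : R) : K) * a ∉ R := by
        intro h2
        apply hcon.2
        rw [hmem]
        have h3 : (y : K) * (c * a) = ((y * c : R) : K) * a := by
          push_cast
          ring
        rw [h3]
        exact h2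
      have h2 : p ≤ krull_I R (((y * c : R) : K) * a) := by
        intro z hz
        rw [mem_krull_I]
        have h3 : (z : K) * (((y * c : R) : K) * a) = y * (z * (c * a)) := by
          push_cast
          ring
        rw [h3]
        exact R.mul_mem y.2 ((hmem z).1 hz)
      have h4 : p = krull_I R (((y * c : R) : K) * a) := by
        by_contra hne
        exact hmax _ ⟨_, h1, rfl⟩ (lt_of_le_of_ne h2 hne)
      apply hcon.1
      rw [h4, mem_krull_I]
      have h3 : (x : K) * (((y * c : R) : K) * a) = ((x * y : R) : K) * (c * a) := by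
        push_cast
        ring
      rw [h3]
      exact (hmem _).1 hxy
  have hex : ∃ t : R, t ∈ p ∧ t ≠ 0 ∧ ∀ y : R, (y : K) = t * (c * a) → y ∉ p := by
    by_contra hcon
    push Not at hcon
    have hst : ∀ t ∈ p, ∃ y : R, (y : K) = t * (c * a) ∧ y ∈ p := by
      intro t ht
      by_cases ht0 : t = 0
      · exact ⟨0, by rw [ht0, ZeroMemClass.coe_zero, zero_mul], p.zero_mem⟩
      · exact hcon t ht ht0
    have hint : IsIntegral R ((c : K) * a) := by
      refine isIntegral_of_smul_mem_submodule (A := K) (M := K)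
        (Submodule.map (Algebra.linearMap R K) p) ?_ ?_ _ ?_
      · obtain ⟨r, hr, s, hs, hs0, h⟩ := hfr a
        have h1 : (⟨s, hs⟩ : R) ∈ p := by
          rw [hmem]
          have h2 : s * ((c : K) * a) = c * r := by
            rw [h]
            field_simp
          change s * ((c : K) * a) ∈ R
          rw [h2]
          exact R.mul_mem c.2 hr
        intro h3
        have h4 : (s : K) ∈ Submodule.map (Algebra.linearMap R K) p :=
          ⟨⟨s, hs⟩, h1, rfl⟩
        rw [h3, Submodule.mem_bot] at h4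
        exact hs0 h4
      · exact Submodule.FG.map _ (IsNoetherian.noetherian p)
      · rintro _ ⟨t, ht, rfl⟩
        obtain ⟨y, hy, hyp⟩ := hst t ht
        refine ⟨y, hyp, ?_⟩
        change (y : K) = (c * a) * t
        rw [hy]
        ring
    obtain ⟨y, hy⟩ := (IsIntegrallyClosed.isIntegral_iff (R := R) (K := K)).1 hint
    apply hca
    rw [← hy]
    exact y.2
  obtain ⟨t, h1, h2, h3⟩ := hex
  exact ⟨p, c, t, hprime, hmem, hca, h1, h2, h3⟩

/-- the contraction of the principal ideal of the local ring -/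
private def krull_L (R : Subalgebra k K) (p : Ideal R) [hp : p.IsPrime] (y : R) : Ideal R where
  carrier := {z | ∃ s : R, s ∉ p ∧ ∃ w : R, s * z = y * w}
  add_mem' := by
    rintro z z' ⟨s, hs, w, h⟩ ⟨s', hs', w', h'⟩
    refine ⟨s * s', fun h1 => ?_, s' * w + s * w', ?_⟩
    · rcases hp.mem_or_mem h1 with h2 | h2
      · exact hs h2
      · exact hs' h2
    · linear_combination s' * h + s * h'
  zero_mem' := ⟨1, fun h => hp.ne_top ((Ideal.eq_top_iff_one p).2 h), 0, by ring⟩
  smul_mem' := by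
    rintro x z ⟨s, hs, w, h⟩
    refine ⟨s, hs, x * w, ?_⟩
    rw [smul_eq_mul]
    linear_combination x * h

private theorem mem_krull_L {R : Subalgebra k K} {p : Ideal R} [hp : p.IsPrime] {y z : R} :
    z ∈ krull_L R p y ↔ ∃ s : R, s ∉ p ∧ ∃ w : R, s * z = y * w := Iff.rfl

private theorem krull_fac (R : Subalgebra k K) [IsNoetherianRing R] {a : K} {p : Ideal R}
    {c t : R} (hp : p.IsPrime) (hpc : ∀ x : R, x ∈ p ↔ (x : K) * (c * a) ∈ R) (htp : t ∈ p)
    (htu : ∀ y : R, (y : K) = t * (c * a) → y ∉ p) (y : R) (hy : y ≠ 0) :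
    ∃ (n : ℕ) (r s : R), r ∉ p ∧ s ∉ p ∧ s * y = t ^ n * r := by
  have hone : (1 : R) ∉ p := fun h => hp.ne_top ((Ideal.eq_top_iff_one p).2 h)
  have wf : WellFounded (fun y z : R => krull_L R p y > krull_L R p z) :=
    InvImage.wf (krull_L R p) wellFounded_gt
  induction y using wf.induction with
  | _ y ih =>
    by_cases hyp : y ∈ p
    · obtain ⟨y1, hy1⟩ : ∃ y1 : R, (y1 : K) = y * (c * a) := ⟨⟨_, (hpc y).1 hyp⟩, rfl⟩
      obtain ⟨u, hu⟩ : ∃ u : R, (u : K) = t * (c * a) := ⟨⟨_, (hpc t).1 htp⟩, rfl⟩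
      have hup := htu u hu
      have hrel : u * y = t * y1 := by
        apply Subtype.ext
        push_cast
        rw [hu, hy1]
        ring
      have hg0 : (c : K) * a ≠ 0 := by
        intro h
        rw [h, mul_zero] at hu
        exact hup (by rw [show u = 0 from Subtype.ext hu]; exact p.zero_mem)
      have hy10 : y1 ≠ 0 := by
        intro h
        rw [h, ZeroMemClass.coe_zero] at hy1
        have h1 : (y : K) ≠ 0 := fun h2 => hy (Subtype.ext h2)
        exact mul_ne_zero h1 hg0 hy1.symm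
      have hlt : krull_L R p y < krull_L R p y1 := by
        refine lt_of_le_of_ne ?_ ?_
        · rintro z ⟨s, hs, w, h⟩
          refine ⟨u * s, fun h1 => ?_, t * w, ?_⟩
          · rcases hp.mem_or_mem h1 with h2 | h2
            · exact hup h2
            · exact hs h2
          · linear_combination u * h + w * hrel
        · intro heq
          have h1 : y1 ∈ krull_L R p y1 := ⟨1, hone, 1, by ring⟩
          rw [← heq, mem_krull_L] at h1
          obtain ⟨s, hs, w, h⟩ := h1
          apply hs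
          rw [hpc]
          have h2 : (s : K) * y1 = y * w := by
            have := congrArg (fun x : R => (x : K)) h
            simpa using this
          rw [hy1] at h2
          have h3 : (y : K) ≠ 0 := fun h2 => hy (Subtype.ext h2)
          have h4 : (s : K) * (c * a) = w := by
            apply mul_left_cancel₀ h3
            linear_combination h2
          rw [h4]
          exact w.2
      obtain ⟨n, r, s, hr, hs, h⟩ := ih y1 hlt hy10
      refine ⟨n + 1, r, s * u, hr, fun h1 => ?_, ?_⟩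
      · rcases hp.mem_or_mem h1 with h2 | h2
        · exact hs h2
        · exact hup h2
      · rw [pow_succ]
        linear_combination s * hrel + t * h
    · exact ⟨0, y, 1, hyp, hone, by ring⟩

/-- D1 (Krull).

Proof.  With `p, c, t` from `krull_step`, `g = c a`, `u = t g ∈ R ∖ p`: let
`A = {r / s | r, s ∈ R, s ∉ p}`, the local ring of `p`.  For `y ∈ p` we have `y = (y g) t / u`, so
the maximal ideal `p A` is `t A`.  Every nonzero `a ∈ A` is `t^n` times a unit of `A`: otherwise the
ideals `(a/t^n) A` form a strictly increasing chain in the noetherian ring `A`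
(or: Krull's intersection theorem).  So for every nonzero `x ∈ K` (a quotient of elements of `A`),
`x` or `x⁻¹` is in `A`: `A` is a valuation ring, with the uniformizer `t`, discrete
(`isDVRof_of_isUnif`).  (Alternatively `IsDiscreteValuationRing.TFAE` for `Localization.AtPrime p`
and transport.)  `g = u / t ∉ A`, `c ∈ A`, so `a ∉ A`. -/
theorem exists_dvr_not_mem (R : Subalgebra k K) [IsNoetherianRing R] [IsIntegrallyClosed R]
    (hfr : ∀ x : K, ∃ r ∈ R, ∃ s ∈ R, s ≠ 0 ∧ x = r / s) {a : K} (ha : a ∉ R) :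
    ∃ A : ValuationSubring K, IsDVRof k A ∧ (∀ r ∈ R, r ∈ A) ∧ a ∉ A ∧
      ∀ b ∈ A, ∃ r ∈ R, ∃ s ∈ R, s ≠ 0 ∧ s⁻¹ ∈ A ∧ b = r / s := by
  obtain ⟨p, c, t, hp, hpc, hca, htp, ht0, htu⟩ := krull_step R hfr ha
  have hone : (1 : R) ∉ p := fun h => hp.ne_top ((Ideal.eq_top_iff_one p).2 h)
  have hmul : ∀ {x y : R}, x ∉ p → y ∉ p → x * y ∉ p := fun hx hy h => by
    rcases hp.mem_or_mem h with h2 | h2
    · exact hx h2
    · exact hy h2
  have hne : ∀ {x : R}, x ∉ p → (x : K) ≠ 0 := fun hx h => by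
    apply hx
    rw [show (_ : R) = 0 from Subtype.ext h]
    exact p.zero_mem
  have htK : (t : K) ≠ 0 := fun h => ht0 (Subtype.ext h)
  have hfac : ∀ y : R, y ≠ 0 → ∃ (n : ℕ) (r s : R), r ∉ p ∧ s ∉ p ∧ (y : K) = t ^ n * (r / s) := by
    intro y hy
    obtain ⟨n, r, s, hr, hs, h⟩ := krull_fac R hp hpc htp htu y hy
    refine ⟨n, r, s, hr, hs, ?_⟩
    have h1 : (s : K) * y = t ^ n * r := by
      have := congrArg (fun x : R => (x : K)) h
      simpa using this
    have h2 := hne hs
    field_simp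
    linear_combination h1
  have hfacK : ∀ x : K, x ≠ 0 → ∃ (e : ℤ) (r s : R), r ∉ p ∧ s ∉ p ∧ x = t ^ e * (r / s) := by
    intro x hx
    obtain ⟨r, hr, s, hs, hs0, h⟩ := hfr x
    have hr0 : r ≠ 0 := by
      rintro rfl
      rw [zero_div] at h
      exact hx h
    obtain ⟨n, r1, s1, hr1, hs1, h1⟩ := hfac ⟨r, hr⟩ (fun h2 => hr0 (congrArg Subtype.val h2))
    obtain ⟨m, r2, s2, hr2, hs2, h2⟩ := hfac ⟨s, hs⟩ (fun h2 => hs0 (congrArg Subtype.val h2))
    refine ⟨(n : ℤ) - m, r1 * s2, s1 * r2, hmul hr1 hs2, hmul hs1 hr2, ?_⟩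
    have e1 := hne hr1
    have e2 := hne hr2
    have e3 := hne hs1
    have e4 := hne hs2
    simp only at h1 h2
    rw [h, h1, h2, zpow_sub₀ htK, zpow_natCast, zpow_natCast]
    push_cast
    field_simp
  let A0 : Subring K :=
    { carrier := {x | ∃ r s : R, s ∉ p ∧ x = r / s}
      mul_mem' := by
        rintro x y ⟨r, s, hs, rfl⟩ ⟨r', s', hs', rfl⟩
        refine ⟨r * r', s * s', hmul hs hs', ?_⟩
        push_cast
        rw [div_mul_div_comm]
      one_mem' := ⟨1, 1, hone, by simp⟩
      add_mem' := by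
        rintro x y ⟨r, s, hs, rfl⟩ ⟨r', s', hs', rfl⟩
        refine ⟨r * s' + s * r', s * s', hmul hs hs', ?_⟩
        push_cast
        rw [div_add_div _ _ (hne hs) (hne hs')]
      zero_mem' := ⟨0, 1, hone, by simp⟩
      neg_mem' := by
        rintro x ⟨r, s, hs, rfl⟩
        refine ⟨-r, s, hs, ?_⟩
        push_cast
        rw [neg_div] }
  have hA0 : ∀ x : K, x ∈ A0 ↔ ∃ r s : R, s ∉ p ∧ x = r / s := fun x => Iff.rfl
  have hunit : ∀ {r s : R}, r ∉ p → s ∉ p → (r : K) / s ∈ A0 ∧ ((r : K) / s)⁻¹ ∈ A0 := by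
    intro r s hr hs
    exact ⟨⟨r, s, hs, rfl⟩, ⟨s, r, hr, inv_div _ _⟩⟩
  have ht : (t : K) ∈ A0 := ⟨t, 1, hone, by simp⟩
  have htz : ∀ e : ℤ, 0 ≤ e → (t : K) ^ e ∈ A0 := by
    intro e he
    obtain ⟨n, rfl⟩ := Int.eq_ofNat_of_zero_le he
    rw [zpow_natCast]
    exact A0.pow_mem ht n
  let A : ValuationSubring K :=
    { A0 with
      mem_or_inv_mem' := by
        intro x
        by_cases hx : x = 0
        · left
          rw [hx]
          exact A0.zero_mem
        obtain ⟨e, r, s, hr, hs, h⟩ := hfacK x hx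
        rcases le_total 0 e with he | he
        · left
          change x ∈ A0
          rw [h]
          exact A0.mul_mem (htz e he) (hunit hr hs).1
        · right
          change x⁻¹ ∈ A0
          rw [h, mul_inv, ← zpow_neg]
          exact A0.mul_mem (htz (-e) (by omega)) (hunit hr hs).2 }
  have hA : ∀ x : K, x ∈ A ↔ x ∈ A0 := fun x => Iff.rfl
  have htinv : (t : K)⁻¹ ∉ A0 := by
    rintro ⟨r, s, hs, h⟩
    apply hs
    have h1 : s = t * r := by
      apply Subtype.ext
      push_cast
      have h2 := hne hs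
      field_simp at h
      exact h
    rw [h1]
    exact p.mul_mem_right _ htp
  have htz' : ∀ e : ℤ, (t : K) ^ e ∈ A0 → 0 ≤ e := by
    intro e he
    by_contra hcon
    apply htinv
    have h1 : (t : K)⁻¹ = t ^ e * t ^ (-e - 1) := by
      rw [← zpow_add₀ htK, ← zpow_neg_one]
      congr 1
      omega
    rw [h1]
    exact A0.mul_mem he (htz _ (by omega))
  have hiff : ∀ (e : ℤ) {r s : R}, r ∉ p → s ∉ p → ((t : K) ^ e * (r / s) ∈ A0 ↔ 0 ≤ e) := by
    intro e r s hr hs
    refine ⟨fun h => htz' e ?_, fun h => A0.mul_mem (htz e h) (hunit hr hs).1⟩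
    have h1 : (t : K) ^ e = t ^ e * (r / s) * (r / s : K)⁻¹ := by
      have e1 := hne hr
      have e2 := hne hs
      field_simp
    rw [h1]
    exact A0.mul_mem h (hunit hr hs).2
  have hU : IsUnif A (t : K) := by
    refine ⟨htK, fun x => ?_⟩
    by_cases hx : x = 0
    · rw [hx, map_zero, zero_div]
      exact ⟨fun _ => A.zero_mem, fun _ => zero_lt_one⟩
    rw [val_lt_one_iff hx, hA, hA]
    obtain ⟨e, r, s, hr, hs, h⟩ := hfacK x hx
    have h1 : x⁻¹ = t ^ (-e) * (s / r) := by
      rw [h, mul_inv, ← zpow_neg, inv_div]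
    have h2 : x / t = t ^ (e - 1) * (r / s) := by
      rw [h, zpow_sub₀ htK, zpow_one]
      ring
    rw [h1, h2, hiff _ hs hr, hiff _ hr hs]
    omega
  refine ⟨A, isDVRof_of_isUnif ?_ hU ?_, ?_, ?_, ?_⟩
  · intro d
    exact ⟨⟨algebraMap k K d, R.algebraMap_mem d⟩, 1, hone, by simp⟩
  · intro b hb hb0
    obtain ⟨e, r, s, hr, hs, h⟩ := hfacK b hb0
    rw [hA, h, hiff _ hr hs] at hb
    obtain ⟨n, rfl⟩ := Int.eq_ofNat_of_zero_le hb
    refine ⟨n, ?_⟩
    have h1 : b / t ^ n = r / s := by
      rw [h, zpow_natCast]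
      have h2 := pow_ne_zero n htK
      field_simp
    rw [h1, val_eq_one_iff (div_ne_zero (hne hr) (hne hs))]
    exact hunit hr hs
  · intro r hr
    exact ⟨⟨r, hr⟩, 1, hone, by simp⟩
  · rintro ⟨r, s, hs, h⟩
    apply hs
    rw [hpc]
    have h1 : (s : K) * (c * a) = c * r := by
      rw [h]
      have h2 := hne hs
      field_simp
    rw [h1]
    exact R.mul_mem c.2 r.2
  · rintro b ⟨r, s, hs, rfl⟩
    exact ⟨r, r.2, s, s.2, hne hs, ⟨1, s, hs, by simp⟩, rfl⟩

end MP9a7843
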