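import Mathlib

/-!
# MP_9a7843_ag, block D, module Elim: elimination of a variable
-/

noncomputable section

open MvPolynomial Classical

namespace MP9a7843

variable {k : Type*} [Field k] {σ : Type*}

/-- Elimination, in the form of one variable over a polynomial ring `R` (a factorial domain).

Proof.  `p` is irreducible of positive degree, so primitive (`Irreducible.isPrimitive`), so
irreducible over `F = Frac R`
(`Polynomial.IsPrimitive.irreducible_iff_irreducible_map_fraction_map`), and
`p ∤ g` over `F` (`Polynomial.IsPrimitive.dvd_iff_fraction_map_dvd_fraction_map`; a divisibility by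
a
primitive polynomial over `F` descends after making `g` primitive).  So `a' p + b' g = 1` over `F`;
multiply by a common denominator of `a'`, `b'`
(`IsLocalization.integerNormalization` or `exist_integer_multiples`). -/
theorem elim_poly {R : Type*} [CommRing R] [IsDomain R] [UniqueFactorizationMonoid R]
    {p g : Polynomial R} (hp : Irreducible p) (hd : p.natDegree ≠ 0) (hg : ¬ p ∣ g) :
    ∃ (a b : Polynomial R) (h : R), h ≠ 0 ∧ a * p + b * g = Polynomial.C h := by
  have hpp : p.IsPrimitive := hp.isPrimitive hd
  have hirr : Irreducible (p.map (algebraMap R (FractionRing R))) :=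
    (hpp.irreducible_iff_irreducible_map_fraction_map).1 hp
  have hndvd : ¬ p.map (algebraMap R (FractionRing R)) ∣ g.map (algebraMap R (FractionRing R)) :=
    fun h => hg (hpp.dvd_of_fraction_map_dvd_fraction_map h)
  have hcop : IsCoprime (p.map (algebraMap R (FractionRing R)))
      (g.map (algebraMap R (FractionRing R))) := (hirr.coprime_iff_not_dvd).2 hndvd
  obtain ⟨a', b', hab⟩ := hcop
  obtain ⟨c, c0, hc⟩ := IsLocalization.integerNormalization_spec (nonZeroDivisors R) a'
  obtain ⟨d, d0, hd'⟩ := IsLocalization.integerNormalization_spec (nonZeroDivisors R) b'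
  refine ⟨Polynomial.C d * IsLocalization.integerNormalization (nonZeroDivisors R) a',
    Polynomial.C c * IsLocalization.integerNormalization (nonZeroDivisors R) b', c * d,
    mul_ne_zero (nonZeroDivisors.ne_zero c0) (nonZeroDivisors.ne_zero d0), ?_⟩
  apply Polynomial.map_injective (algebraMap R (FractionRing R)) (IsFractionRing.injective _ _)
  rw [Algebra.smul_def, Polynomial.algebraMap_apply] at hc hd'
  simp only [Polynomial.map_add, Polynomial.map_mul, Polynomial.map_C, hc, hd', map_mul]
  have h1 := congrArg (fun q => Polynomial.C (algebraMap R (FractionRing R) c) *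
    Polynomial.C (algebraMap R (FractionRing R) d) * q) hab
  simp only [mul_one] at h1
  rw [← h1]
  ring

private theorem exists_equiv (j : σ) :
    ∃ Φ : MvPolynomial σ k ≃ₐ[k] Polynomial (MvPolynomial {i // i ≠ j} k),
      ∀ q, Φ (rename Subtype.val q) = Polynomial.C q := by
  refine ⟨(renameEquiv k (Equiv.optionSubtypeNe j).symm).trans (optionEquivLeft k _), fun q => ?_⟩
  rw [AlgEquiv.trans_apply, renameEquiv_apply, rename_rename]
  have h1 : ((Equiv.optionSubtypeNe j).symm ∘ Subtype.val : {i // i ≠ j} → Option {i // i ≠ j}) =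
      some := by
    funext i
    exact (Equiv.optionSubtypeNe_symm_of_ne i.2)
  rw [h1]
  induction q using MvPolynomial.induction_on with
  | C a => simp [optionEquivLeft_C]
  | add f g hf hg => rw [map_add, map_add, hf, hg, map_add]
  | mul_X f i hf => rw [map_mul, map_mul, hf, rename_X, optionEquivLeft_X_some, map_mul]

private theorem pderiv_rename_val {j : σ} (q : MvPolynomial {i // i ≠ j} k) :
    pderiv j (rename Subtype.val q) = 0 := by
  apply pderiv_eq_zero_of_notMem_vars
  intro h
  have h1 := vars_rename Subtype.val q h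
  obtain ⟨i, -, hi⟩ := Finset.mem_image.1 h1
  exact i.2 hi

/-- Elimination of the variable `j`.

Proof.  Transport `elim_poly` with `R = MvPolynomial {i // i ≠ j} k` by
`(renameEquiv k (Equiv.optionSubtypeNe j).symm).trans (optionEquivLeft k _)`; `∂_j p ≠ 0` implies
that `p` has positive degree in `X_j`; the image of `R` in `MvPolynomial σ k` is `rename
Subtype.val`,
and `∂_j` vanishes on it. -/
theorem elim_var {p g : MvPolynomial σ k} (hp : Irreducible p) {j : σ} (hj : pderiv j p ≠ 0)
    (hg : ¬ p ∣ g) :
    ∃ a b h : MvPolynomial σ k, h ≠ 0 ∧ pderiv j h = 0 ∧ a * p + b * g = h := by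
  obtain ⟨Φ, hΦ⟩ := exists_equiv (k := k) j
  have hsym : ∀ q, Φ.symm (Polynomial.C q) = rename Subtype.val q := fun q => by
    rw [← hΦ, AlgEquiv.symm_apply_apply]
  have hd : (Φ p).natDegree ≠ 0 := fun h0 => by
    apply hj
    have h1 : p = rename Subtype.val ((Φ p).coeff 0) := by
      rw [← hsym, ← Polynomial.eq_C_of_natDegree_eq_zero h0, AlgEquiv.symm_apply_apply]
    rw [h1]
    exact pderiv_rename_val _
  have hirr : Irreducible (Φ p) := (MulEquiv.irreducible_iff Φ).2 hp
  have hnd : ¬ Φ p ∣ Φ g := fun h => hg ((map_dvd_iff Φ).1 h)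
  obtain ⟨a, b, h, hh, hab⟩ := elim_poly hirr hd hnd
  refine ⟨Φ.symm a, Φ.symm b, rename Subtype.val h, fun h0 => ?_, pderiv_rename_val _, ?_⟩
  · exact hh (rename_injective _ Subtype.val_injective (h0.trans (map_zero _).symm))
  · apply Φ.injective
    rw [map_add, map_mul, map_mul, AlgEquiv.apply_symm_apply, AlgEquiv.apply_symm_apply, hab, hΦ]

end MP9a7843
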