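import Mathlib

/-!
# MP_9a7843_ag, block D, module Pd: partial derivatives and total degrees
-/

noncomputable section

open MvPolynomial Classical

namespace MP9a7843

variable {k : Type*} [Field k] {σ : Type*}

/-- A polynomial of positive total degree has a nonzero partial derivative (characteristic zero):
a monomial `m` in the support with `m i ≠ 0`; the coefficient of `m - e_i` in `∂_i P` is
`m i * coeff m P` (`MvPolynomial.pderiv_monomial`, `coeff_...`). -/
theorem exists_pderiv_ne_zero [CharZero k] {P : MvPolynomial σ k} (hP : P.totalDegree ≠ 0) :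
    ∃ i, pderiv i P ≠ 0 := by
  have h1 : ∃ m ∈ P.support, m ≠ 0 := by
    by_contra hcon
    push Not at hcon
    apply hP
    refine Nat.le_zero.mp ?_
    unfold totalDegree
    refine Finset.sup_le fun m hm => ?_
    rw [hcon m hm]
    simp
  obtain ⟨m, hm, hm0⟩ := h1
  obtain ⟨i, hi⟩ : ∃ i, m i ≠ 0 := by
    by_contra hcon
    push Not at hcon
    exact hm0 (Finsupp.ext hcon)
  refine ⟨i, fun h0 => ?_⟩
  have h2 := coeff_pderiv (i := i) P (m - Finsupp.single i 1)
  have h3 : m - Finsupp.single i 1 + Finsupp.single i 1 = m := by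
    refine tsub_add_cancel_of_le ?_
    rw [Finsupp.single_le_iff]
    omega
  rw [h0, h3, coeff_zero] at h2
  have h4 : P.coeff m ≠ 0 := mem_support_iff.mp hm
  have h5 : (((m - Finsupp.single i 1 : σ →₀ ℕ) i + 1 : ℕ) : k) ≠ 0 := by
    exact Nat.cast_ne_zero.mpr (Nat.succ_ne_zero ((m - Finsupp.single i 1 : σ →₀ ℕ) i))
  push_cast at h5
  rcases mul_eq_zero.mp h2.symm with h6 | h6
  · exact h4 h6
  · exact h5 h6

/-- Differentiation lowers the total degree: every monomial of `∂_i P` is `m - e_i` for a monomial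
`m` of `P` with `m i ≠ 0`. -/
theorem totalDegree_pderiv_lt {P : MvPolynomial σ k} {i : σ} (h : pderiv i P ≠ 0) :
    (pderiv i P).totalDegree < P.totalDegree := by
  have key : ∀ m ∈ (pderiv i P).support, (m.sum fun _ e => e) + 1 ≤ P.totalDegree := by
    intro m hm
    have h1 := mem_support_iff.mp hm
    rw [coeff_pderiv] at h1
    have h2 : m + Finsupp.single i 1 ∈ P.support := mem_support_iff.mpr (left_ne_zero_of_mul h1)
    have h3 := le_totalDegree h2
    rw [Finsupp.sum_add_index' (fun _ => rfl) (fun _ _ _ => rfl),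
      Finsupp.sum_single_index rfl] at h3
    exact h3
  obtain ⟨m, hm⟩ := Finset.nonempty_of_ne_empty (fun h0 => h (support_eq_empty.mp h0))
  have h1 := key m hm
  have h2 : 0 < P.totalDegree := by omega
  unfold totalDegree at h2 ⊢
  rw [Finset.sup_lt_iff (by simpa using h2)]
  intro m hm
  exact key m hm

/-- `MvPolynomial.totalDegree_mul_of_isDomain`. -/
theorem totalDegree_le_of_dvd {P Q : MvPolynomial σ k} (h : P ∣ Q) (hQ : Q ≠ 0) :
    P.totalDegree ≤ Q.totalDegree := by
  obtain ⟨R, rfl⟩ := h
  rw [totalDegree_mul_of_isDomain (left_ne_zero_of_mul hQ) (right_ne_zero_of_mul hQ)]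
  exact Nat.le_add_right _ _

/-- `MvPolynomial.pderiv_pderiv_comm` or by induction. -/
theorem pderiv_comm (i j : σ) (P : MvPolynomial σ k) :
    pderiv i (pderiv j P) = pderiv j (pderiv i P) := by
  ext m
  rw [coeff_pderiv, coeff_pderiv, coeff_pderiv, coeff_pderiv]
  by_cases hij : i = j
  · subst hij
    rfl
  · have h1 : (m + Finsupp.single i 1 : σ →₀ ℕ) j = m j := by
      rw [Finsupp.add_apply, Finsupp.single_eq_of_ne (Ne.symm hij), add_zero]
    have h2 : (m + Finsupp.single j 1 : σ →₀ ℕ) i = m i := by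
      rw [Finsupp.add_apply, Finsupp.single_eq_of_ne hij, add_zero]
    rw [h1, h2, add_right_comm m (Finsupp.single j 1)]
    ring

end MP9a7843
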