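import Pool.Agent.Lib.MP_9a7843_ag_D.Loc
import Pool.Agent.Lib.MP_9a7843_ag_D.Pd
import Pool.Agent.Lib.MP_9a7843_ag_D.Elim

/-!
# MP_9a7843_ag, block D, module Cell: the cell lemma

A discrete valuation ring `A ⊃ k[x]` of `K = k(x)` which is etale over `k[x]` is the localisation at
a principal prime ideal.
-/

noncomputable section

open MvPolynomial Classical

namespace MP9a7843

variable {k : Type*} [Field k] [CharZero k] {K : Type*} [Field K] [Algebra k K] {σ : Type*}
  [Fintype σ] {x : σ → K} {A : ValuationSubring K}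

private theorem isUnit_of_totalDegree {q : MvPolynomial σ k} (h : q.totalDegree = 0)
    (h0 : q ≠ 0) : IsUnit q := by
  rw [totalDegree_eq_zero_iff_eq_C] at h
  have h1 : coeff 0 q ≠ 0 := fun hc => h0 (by rw [h, hc, C_0])
  rw [h]
  exact (isUnit_iff_ne_zero.2 h1).map C

private theorem not_isUnit_of_val (hA : IsDVRof k A) (he : EtaleAt k A x)
    {q : MvPolynomial σ k} (hq : A.valuation (aeval x q) < 1) : ¬ IsUnit q := by
  intro hu
  obtain ⟨r, hr⟩ := hu.exists_right_inv
  have h1 : A.valuation (aeval x q) * A.valuation (aeval x r) = 1 := by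
    rw [← map_mul, ← map_mul, hr, map_one, map_one]
  have h2 : A.valuation (aeval x r) ≤ 1 :=
    (A.valuation_le_one_iff _).2 (aeval_mem hA.1 he.1 r)
  have h3 := mul_lt_one_of_lt_of_le hq h2
  rw [h1] at h3
  exact lt_irrefl _ h3

private theorem val_mul_lt {a b : K} (ha : A.valuation a < 1) (hb : b ∈ A) :
    A.valuation (a * b) < 1 := by
  rw [map_mul]
  exact mul_lt_one_of_lt_of_le ha ((A.valuation_le_one_iff _).2 hb)

private theorem exists_derA (hx : AlgebraicIndependent k x)
    (hg : IntermediateField.adjoin k (Set.range x) = ⊤) (he : EtaleAt k A x) (j : σ) :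
    ∃ δ : Derivation k K K, (∀ P : MvPolynomial σ k, δ (aeval x P) = aeval x (pderiv j P)) ∧
      ∀ a ∈ A, δ a ∈ A := by
  obtain ⟨δ, hδ⟩ := exists_der hx (isAlgebraic_of_adjoin_eq_top hg) (Pi.single j (1 : K))
  refine ⟨δ, fun P => ?_, he.2 δ fun i => ?_⟩
  · rw [der_aeval, Finset.sum_eq_single j]
    · rw [hδ, Pi.single_eq_same, mul_one]
    · intro b _ hb
      rw [hδ, Pi.single_eq_of_ne hb, mul_zero]
    · intro h
      exact absurd (Finset.mem_univ j) h
  · rw [hδ]
    by_cases hi : i = j
    · subst hi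
      rw [Pi.single_eq_same]
      exact A.one_mem
    · rw [Pi.single_eq_of_ne hi]
      exact A.zero_mem

/-- Step 1: some nonzero polynomial is in the maximal ideal (otherwise `k(x) ⊂ A`). -/
theorem cell_step1 (hg : IntermediateField.adjoin k (Set.range x) = ⊤) (hA : IsDVRof k A)
    (hxA : ∀ i, x i ∈ A) :
    ∃ P : MvPolynomial σ k, P ≠ 0 ∧ A.valuation (aeval x P) < 1 := by
  by_contra hcon
  push Not at hcon
  apply hA.ne_top
  refine eq_top_iff.mpr fun a _ => ?_
  obtain ⟨P, Q, hQ, rfl⟩ := exists_frac hg a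
  have hQ0 : Q ≠ 0 := by
    rintro rfl
    exact hQ (map_zero _)
  have h1 := hcon Q hQ0
  have h2 : (aeval x Q)⁻¹ ∈ A := by
    by_contra h3
    exact absurd ((MP9a7843.val_lt_one_iff hQ).2 h3) (not_lt.2 h1)
  rw [div_eq_mul_inv]
  exact mul_mem (aeval_mem hA.1 hxA P) h2

/-- Step 2: a nonzero polynomial `p` of minimal degree in the maximal ideal is irreducible, has a
partial derivative which is a unit of `A`, and is a uniformizer of `A`.

Proof.  `p` is not constant (nonzero constants are units).  If `p = q r`, one factor is in the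
maximal ideal, of total degree `≥` that of `p`, so the other factor has degree `0`.  `∂_j p ≠ 0` for
some `j` (`exists_pderiv_ne_zero`), of smaller degree (`totalDegree_pderiv_lt`), so it is not in the
maximal ideal.  Let `ϖ` be a uniformizer and `δ` the derivation with `δ x_i = δ_ij` (`exists_der`),
`δ A ⊂ A`.  `ord p ≥ 1`; if `ord p ≥ 2`, `p = ϖ^2 c`, `c ∈ A`, then
`∂_j p = δ(p) = ϖ (2 c δ(ϖ) + ϖ δ(c))` is in the maximal ideal, contradiction. -/
theorem cell_step2 (hx : AlgebraicIndependent k x)
    (hg : IntermediateField.adjoin k (Set.range x) = ⊤) (hA : IsDVRof k A) (he : EtaleAt k A x)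
    {p : MvPolynomial σ k} (hp : p ≠ 0) (hpA : A.valuation (aeval x p) < 1)
    (hmin : ∀ q : MvPolynomial σ k, q ≠ 0 → A.valuation (aeval x q) < 1 →
      p.totalDegree ≤ q.totalDegree) :
    Irreducible p ∧ IsUnif A (aeval x p) ∧ ∃ j, A.valuation (aeval x (pderiv j p)) = 1 := by
  have hle : ∀ q : MvPolynomial σ k, A.valuation (aeval x q) ≤ 1 := fun q =>
    (A.valuation_le_one_iff _).2 (aeval_mem hA.1 he.1 q)
  have hirr : Irreducible p := by
    refine ⟨fun hu => ?_, fun {a b} hab => ?_⟩
    · exact (not_isUnit_of_val hA he hpA) hu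
    · have ha0 : a ≠ 0 := by
        rintro rfl
        rw [zero_mul] at hab
        exact hp hab
      have hb0 : b ≠ 0 := by
        rintro rfl
        rw [mul_zero] at hab
        exact hp hab
      have hdeg : p.totalDegree = a.totalDegree + b.totalDegree := by
        rw [hab, totalDegree_mul_of_isDomain ha0 hb0]
      rcases lt_or_eq_of_le (hle a) with h1 | h1
      · right
        have h2 := hmin a ha0 h1
        exact isUnit_of_totalDegree (by omega) hb0
      · rcases lt_or_eq_of_le (hle b) with h2 | h2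
        · left
          have h3 := hmin b hb0 h2
          exact isUnit_of_totalDegree (by omega) ha0
        · exfalso
          rw [hab, map_mul, map_mul, h1, h2, one_mul] at hpA
          exact lt_irrefl _ hpA
  have hdeg : p.totalDegree ≠ 0 := fun h0 => hirr.not_isUnit (isUnit_of_totalDegree h0 hp)
  obtain ⟨j, hj⟩ := exists_pderiv_ne_zero hdeg
  have hj1 : A.valuation (aeval x (pderiv j p)) = 1 := by
    rcases lt_or_eq_of_le (hle (pderiv j p)) with h1 | h1
    · exact absurd (hmin _ hj h1) (not_le.2 (totalDegree_pderiv_lt hj))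
    · exact h1
  refine ⟨hirr, hA.isUnif_of_ord ?_, j, hj1⟩
  have hp0 : aeval x p ≠ 0 := aeval_ne_zero hx hp
  have hpos : 0 < ord A (aeval x p) := (hA.ord_pos_iff hp0).2 hpA
  by_contra hne
  have h2 : 2 ≤ ord A (aeval x p) := by omega
  obtain ⟨ϖ, hϖ⟩ := hA.exists_isUnif
  obtain ⟨δ, hδ, hδA⟩ := exists_derA hx hg he j
  have hϖA : ϖ ∈ A := (A.valuation_le_one_iff ϖ).mp hϖ.lt_one.le
  have hc : aeval x p / ϖ ^ 2 ∈ A := by
    refine (hA.ord_nonneg_iff (div_ne_zero hp0 (pow_ne_zero 2 hϖ.1))).1 ?_
    rw [hA.ord_div hp0 (pow_ne_zero 2 hϖ.1), hA.ord_pow, hϖ.ord_self]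
    push_cast
    omega
  have hpc : aeval x p = ϖ * (ϖ * (aeval x p / ϖ ^ 2)) := by
    have := hϖ.1
    field_simp
  generalize aeval x p / ϖ ^ 2 = c at hc hpc
  have h3 : aeval x (pderiv j p) =
      ϖ * (ϖ * δ c + 2 * c * δ ϖ) := by
    rw [← hδ, hpc, Derivation.leibniz, Derivation.leibniz]
    simp only [smul_eq_mul]
    ring
  have h4 : A.valuation (aeval x (pderiv j p)) < 1 := by
    rw [h3]
    apply val_mul_lt hϖ.lt_one
    refine add_mem (mul_mem hϖA (hδA _ hc)) (mul_mem (mul_mem ?_ hc) (hδA _ hϖA))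
    have h5 := A.add_mem _ _ A.one_mem A.one_mem
    rwa [one_add_one_eq_two] at h5
  rw [hj1] at h4
  exact lt_irrefl _ h4

/-- Step 3: with `p` as in step 2, the polynomials in the maximal ideal are the multiples of `p`.

Proof.  Let `g` be in the maximal ideal, `p ∤ g`.  `elim_var` gives `h ≠ 0` in the maximal ideal
with `∂_j h = 0`.  Take such an `h` of minimal total degree.  It is not constant, so `∂_i h ≠ 0`
for some
`i`, and `∂_j ∂_i h = 0` (`pderiv_comm`), so by minimality `∂_i h` is a unit of `A`.  `h = p c` with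
`c ∈ A`.  With the derivations `δ_i`, `δ_j` of `K`: `0 = ∂_j h = c ∂_j p + p δ_j(c)`, so `c` is in
the maximal ideal; `∂_i h = c ∂_i p + p δ_i(c)` is in the maximal ideal, contradiction. -/
theorem cell_step3 (hx : AlgebraicIndependent k x)
    (hg : IntermediateField.adjoin k (Set.range x) = ⊤) (hA : IsDVRof k A) (he : EtaleAt k A x)
    {p : MvPolynomial σ k} (hp : Irreducible p) (hu : IsUnif A (aeval x p)) {j : σ}
    (hj : A.valuation (aeval x (pderiv j p)) = 1) {g : MvPolynomial σ k}
    (hgA : A.valuation (aeval x g) < 1) : p ∣ g := by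
  have hle : ∀ q : MvPolynomial σ k, A.valuation (aeval x q) ≤ 1 := fun q =>
    (A.valuation_le_one_iff _).2 (aeval_mem hA.1 he.1 q)
  have hkey : ∀ (n : ℕ) (h : MvPolynomial σ k), h.totalDegree = n → h ≠ 0 → pderiv j h = 0 →
      A.valuation (aeval x h) < 1 → False := by
    intro n
    induction n using Nat.strong_induction_on with
    | _ n ih =>
      intro h hn h0 hjh hv
      have hdeg : h.totalDegree ≠ 0 := fun hd0 =>
        not_isUnit_of_val hA he hv (isUnit_of_totalDegree hd0 h0)
      obtain ⟨i, hi⟩ := exists_pderiv_ne_zero hdeg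
      have hv1 : ¬ A.valuation (aeval x (pderiv i h)) < 1 := fun hlt => by
        refine ih _ ?_ (pderiv i h) rfl hi ?_ hlt
        · rw [← hn]
          exact totalDegree_pderiv_lt hi
        · rw [pderiv_comm, hjh, map_zero]
      obtain ⟨δ, hδ, hδA⟩ := exists_derA hx hg he j
      obtain ⟨ε, hε, hεA⟩ := exists_derA hx hg he i
      have hc : aeval x h / aeval x p ∈ A := (hu.2 _).1 hv
      have hpc : aeval x h = aeval x p * (aeval x h / aeval x p) := by
        rw [mul_div_cancel₀ _ hu.1]
      generalize aeval x h / aeval x p = c at hc hpc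
      have h1 : c * aeval x (pderiv j p) + aeval x p * δ c = 0 := by
        have h2 := hδ h
        rw [hjh, map_zero, hpc, Derivation.leibniz, smul_eq_mul, smul_eq_mul, hδ] at h2
        rw [← h2]
        ring
      have hcv : A.valuation c < 1 := by
        have h2 : A.valuation (c * aeval x (pderiv j p)) < 1 := by
          have h3 : c * aeval x (pderiv j p) = aeval x p * (-δ c) := by
            linear_combination h1
          rw [h3]
          exact val_mul_lt hu.lt_one (neg_mem (hδA _ hc))
        rwa [map_mul, hj, mul_one] at h2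
      apply hv1
      have h2 : aeval x (pderiv i h) = c * aeval x (pderiv i p) + aeval x p * ε c := by
        rw [← hε, hpc, Derivation.leibniz, smul_eq_mul, smul_eq_mul, hε]
        ring
      rw [h2]
      refine Valuation.map_add_lt _ (val_mul_lt hcv (aeval_mem hA.1 he.1 _))
        (val_mul_lt hu.lt_one (hεA _ hc))
  by_contra hdvd
  have hj0 : pderiv j p ≠ 0 := fun h0 => by
    rw [h0, map_zero, map_zero] at hj
    exact zero_ne_one hj
  obtain ⟨a, b, h, h0, hjh, hab⟩ := elim_var hp hj0 hdvd
  refine hkey _ h rfl h0 hjh ?_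
  rw [← hab, map_add, map_mul, map_mul]
  refine Valuation.map_add_lt _ ?_ ?_
  · rw [mul_comm]
    exact val_mul_lt hu.lt_one (aeval_mem hA.1 he.1 _)
  · rw [mul_comm]
    exact val_mul_lt hgA (aeval_mem hA.1 he.1 _)

/-- D2 (cell lemma): `A` is the localisation of `k[x]` at a principal prime ideal.

Proof.  Steps 1 - 3.  The localisation `B` of `k[x]` at `(p)` (`exists_isLocAt`) is contained in `A`
(`Q` with `p ∤ Q` is a unit of `A` by step 3), so `B = A` (`IsDVRof.eq_of_le`). -/
theorem exists_isLocAt_of_etale (hx : AlgebraicIndependent k x)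
    (hg : IntermediateField.adjoin k (Set.range x) = ⊤) (hA : IsDVRof k A)
    (he : EtaleAt k A x) : ∃ π : MvPolynomial σ k, Irreducible π ∧ IsLocAt x π A := by
  obtain ⟨P, hP0, hP⟩ := cell_step1 hg hA he.1
  have hex : ∃ n : ℕ, ∃ q : MvPolynomial σ k, q.totalDegree = n ∧ q ≠ 0 ∧
      A.valuation (aeval x q) < 1 := ⟨_, P, rfl, hP0, hP⟩
  obtain ⟨p, hpd, hp0, hpA⟩ := Nat.find_spec hex
  have hmin : ∀ q : MvPolynomial σ k, q ≠ 0 → A.valuation (aeval x q) < 1 →
      p.totalDegree ≤ q.totalDegree := fun q hq0 hqA => by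
    rw [hpd]
    exact Nat.find_min' hex ⟨q, rfl, hq0, hqA⟩
  obtain ⟨hirr, hu, j, hj⟩ := cell_step2 hx hg hA he hp0 hpA hmin
  obtain ⟨B, hB⟩ := exists_isLocAt hx hg hirr
  have hBD := hB.isDVRof hx hirr
  refine ⟨p, hirr, ?_⟩
  have hBA : B ≤ A := by
    intro b hb
    obtain ⟨R, Q, hQ, rfl⟩ := (hB _).1 hb
    have hQ0 : Q ≠ 0 := fun h0 => hQ (h0 ▸ dvd_zero p)
    have hQ1 : (aeval x Q)⁻¹ ∈ A := by
      by_contra h3
      exact hQ (cell_step3 hx hg hA he hirr hu hj
        ((MP9a7843.val_lt_one_iff (aeval_ne_zero hx hQ0)).2 h3))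
    rw [div_eq_mul_inv]
    exact mul_mem (aeval_mem hA.1 he.1 R) hQ1
  rw [← hBD.eq_of_le hBA hA.ne_top]
  exact hB

/-- If the variable `x_s` is in the maximal ideal then `A = k[x]_(x_s)`: `π ∣ X_s`, and `X_s` is
irreducible. -/
theorem isLocAt_X (hx : AlgebraicIndependent k x)
    (hg : IntermediateField.adjoin k (Set.range x) = ⊤) (hA : IsDVRof k A)
    (he : EtaleAt k A x) {s : σ} (hs : A.valuation (x s) < 1) :
    IsLocAt x (X s : MvPolynomial σ k) A := by
  obtain ⟨π, hπ, hL⟩ := exists_isLocAt_of_etale hx hg hA he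
  have h1 : π ∣ X s := (hL.val_lt_one_iff hx hπ (X s)).1 (by rwa [aeval_X])
  have hX : Irreducible (X s : MvPolynomial σ k) := X_prime.irreducible
  exact hL.of_associated ((hπ.dvd_irreducible_iff_associated hX).1 h1)

/-- Two variables are not both in the maximal ideal. -/
theorem val_var (hx : AlgebraicIndependent k x)
    (hg : IntermediateField.adjoin k (Set.range x) = ⊤) (hA : IsDVRof k A)
    (he : EtaleAt k A x) {s t : σ} (hst : s ≠ t) (hs : A.valuation (x s) < 1) :
    A.valuation (x t) = 1 := by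
  have hL := isLocAt_X hx hg hA he hs
  have hX : Irreducible (X s : MvPolynomial σ k) := X_prime.irreducible
  have h1 := hL.val_eq_one hx hX (Q := X t) (fun h => hst (X_dvd_X.1 h))
  rwa [aeval_X] at h1

/-- If the variable `x_s` is in the maximal ideal, it has order `1`. -/
theorem ord_var (hx : AlgebraicIndependent k x)
    (hg : IntermediateField.adjoin k (Set.range x) = ⊤) (hA : IsDVRof k A)
    (he : EtaleAt k A x) {s : σ} (hs : A.valuation (x s) < 1) : ord A (x s) = 1 := by
  have hL := isLocAt_X hx hg hA he hs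
  have hX : Irreducible (X s : MvPolynomial σ k) := X_prime.irreducible
  have h1 := (hL.isUnif hx hX).ord_self
  rwa [aeval_X] at h1

/-- The discrete valuation ring of the variable `x_s`. -/
theorem exists_var (hx : AlgebraicIndependent k x)
    (hg : IntermediateField.adjoin k (Set.range x) = ⊤) (s : σ) :
    ∃ A : ValuationSubring K, IsDVRof k A ∧ EtaleAt k A x ∧ IsLocAt x (X s : MvPolynomial σ k) A ∧
      ord A (x s) = 1 := by
  have hX : Irreducible (X s : MvPolynomial σ k) := X_prime.irreducible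
  obtain ⟨A, hA⟩ := exists_isLocAt hx hg hX
  refine ⟨A, hA.isDVRof hx hX, hA.etaleAt hx hX, hA, ?_⟩
  have h1 := (hA.isUnif hx hX).ord_self
  rwa [aeval_X] at h1

end MP9a7843
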