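import Pool.Agent.Lib.MP_9a7843_ag_B.Base

/-!
# MP_9a7843_ag, block D, module Der: derivations, polynomials and valuation rings; transfer of the
property `EtaleAt`
-/

noncomputable section

open MvPolynomial Classical KaehlerDifferential

open scoped KaehlerDifferential

namespace MP9a7843

variable {k : Type*} [Field k] {K : Type*} [Field K] [Algebra k K] {σ τ : Type*}

/-- The differentials of a transcendence basis are a basis of the differentials (as
`exists_isDB` of block V, for arbitrary universes). -/
theorem exists_basis_d [CharZero k] (x : σ → K) (hx : AlgebraicIndependent k x)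
    (h : Algebra.IsAlgebraic (IntermediateField.adjoin k (Set.range x)) K) :
    ∃ B : Module.Basis σ K (Ω[K⁄k]), ∀ s, B s = D k K (x s) := by
  let i1 : Algebra (MvPolynomial σ k) K := (MvPolynomial.aeval x).toRingHom.toAlgebra
  have i2 : IsScalarTower k (MvPolynomial σ k) K :=
    IsScalarTower.of_algebraMap_eq fun c => by
      change algebraMap k K c = MvPolynomial.aeval x (MvPolynomial.C c)
      rw [MvPolynomial.aeval_C]
  let i3 : Algebra (MvPolynomial σ k) (IntermediateField.adjoin k (Set.range x)) :=
    (hx.aevalEquivField.toRingEquiv.toRingHom.comp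
      (algebraMap (MvPolynomial σ k) (FractionRing (MvPolynomial σ k)))).toAlgebra
  have i4 : IsScalarTower (MvPolynomial σ k) (IntermediateField.adjoin k (Set.range x)) K :=
    IsScalarTower.of_algebraMap_eq fun c => by
      change MvPolynomial.aeval x c = ((hx.aevalEquivField
        (algebraMap (MvPolynomial σ k) (FractionRing (MvPolynomial σ k)) c) :
        IntermediateField.adjoin k (Set.range x)) : K)
      rw [AlgebraicIndependent.aevalEquivField_algebraMap_apply_coe]
  have i5 : IsLocalization (nonZeroDivisors (MvPolynomial σ k))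
      (IntermediateField.adjoin k (Set.range x)) := by
    let e : FractionRing (MvPolynomial σ k) ≃ₐ[MvPolynomial σ k]
        (IntermediateField.adjoin k (Set.range x)) :=
      AlgEquiv.ofRingEquiv (f := hx.aevalEquivField.toRingEquiv) fun _ => rfl
    exact IsLocalization.isLocalization_of_algEquiv _ e
  have i6 : Algebra.FormallyEtale (MvPolynomial σ k)
      (IntermediateField.adjoin k (Set.range x)) :=
    Algebra.FormallyEtale.of_isLocalization (nonZeroDivisors (MvPolynomial σ k))
  have i7 : Algebra.FormallyEtale (IntermediateField.adjoin k (Set.range x)) K := by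
    have := h
    exact Algebra.FormallyEtale.of_isSeparable _ _
  have i8 : Algebra.FormallyEtale (MvPolynomial σ k) K :=
    Algebra.FormallyEtale.comp (MvPolynomial σ k) (IntermediateField.adjoin k (Set.range x)) K
  refine ⟨((mvPolynomialBasis k σ).baseChange K).map
    (tensorKaehlerEquivOfFormallyEtale k (MvPolynomial σ k) K), fun s => ?_⟩
  rw [Module.Basis.map_apply, Module.Basis.baseChange_apply, mvPolynomialBasis_apply,
    tensorKaehlerEquivOfFormallyEtale_apply, mapBaseChange_tmul, one_smul, map_D]
  congr 1
  change MvPolynomial.aeval x (MvPolynomial.X s) = x s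
  rw [MvPolynomial.aeval_X]

/-- Derivations with prescribed values on a transcendence basis. -/
theorem exists_der [CharZero k] {x : σ → K} (hx : AlgebraicIndependent k x)
    (ha : Algebra.IsAlgebraic (IntermediateField.adjoin k (Set.range x)) K) (c : σ → K) :
    ∃ δ : Derivation k K K, ∀ i, δ (x i) = c i := by
  obtain ⟨B, hB⟩ := exists_basis_d x hx ha
  refine ⟨(B.constr K c).compDer (D k K), fun i => ?_⟩
  change B.constr K c (D k K (x i)) = c i
  rw [← hB i, Module.Basis.constr_basis]

/-- Derivations with the same values on a transcendence basis are equal. -/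
theorem der_unique [CharZero k] {x : σ → K} (hx : AlgebraicIndependent k x)
    (ha : Algebra.IsAlgebraic (IntermediateField.adjoin k (Set.range x)) K)
    {δ δ' : Derivation k K K}
    (h : ∀ i, δ (x i) = δ' (x i)) : δ = δ' := by
  obtain ⟨B, hB⟩ := exists_basis_d x hx ha
  have h1 : δ.liftKaehlerDifferential = δ'.liftKaehlerDifferential := by
    refine B.ext fun i => ?_
    rw [hB i, Derivation.liftKaehlerDifferential_comp_D, Derivation.liftKaehlerDifferential_comp_D]
    exact h i
  ext a
  rw [← Derivation.liftKaehlerDifferential_comp_D δ a,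
    ← Derivation.liftKaehlerDifferential_comp_D δ' a, h1]

/-- `δ(P(x)) = Σ (∂_i P)(x) δ(x_i)` (`MvPolynomial.induction_on`). -/
theorem der_aeval [Fintype σ] (x : σ → K) (δ : Derivation k K K) (P : MvPolynomial σ k) :
    δ (aeval x P) = ∑ i, aeval x (pderiv i P) * δ (x i) := by
  induction P using MvPolynomial.induction_on with
  | C a =>
    rw [aeval_C, Derivation.map_algebraMap]
    refine (Finset.sum_eq_zero fun i _ => ?_).symm
    rw [pderiv_C, map_zero, zero_mul]
  | add p q hp hq =>
    rw [map_add, map_add, hp, hq, ← Finset.sum_add_distrib]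
    refine Finset.sum_congr rfl fun i _ => ?_
    rw [map_add, map_add, add_mul]
  | mul_X p n hp =>
    rw [map_mul, aeval_X, Derivation.leibniz, hp, smul_eq_mul, smul_eq_mul]
    have h1 : ∀ i, aeval x (pderiv i (p * X n)) * δ (x i) =
        x n * (aeval x (pderiv i p) * δ (x i))
          + (if i = n then aeval x p * δ (x n) else 0) := by
      intro i
      rw [pderiv_mul, map_add, map_mul, map_mul, aeval_X]
      by_cases hi : i = n
      · subst hi
        rw [pderiv_X_self, map_one, if_pos rfl]
        ring
      · rw [pderiv_X_of_ne (Ne.symm hi), map_zero, if_neg hi]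
        ring
    rw [Finset.sum_congr rfl fun i _ => h1 i, Finset.sum_add_distrib, ← Finset.mul_sum,
      Finset.sum_ite_eq' Finset.univ n, if_pos (Finset.mem_univ n)]
    ring

/-- Polynomials in elements of `A` are in `A`. -/
theorem aeval_mem {A : ValuationSubring K} (hk : ∀ c : k, algebraMap k K c ∈ A) {x : σ → K}
    (hx : ∀ i, x i ∈ A) (P : MvPolynomial σ k) : aeval x P ∈ A := by
  induction P using MvPolynomial.induction_on with
  | C a =>
    rw [aeval_C]
    exact hk a
  | add p q hp hq =>
    rw [map_add]
    exact add_mem hp hq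
  | mul_X p n hp =>
    rw [map_mul, aeval_X]
    exact mul_mem hp (hx n)

/-- A derivation that maps the `x_i ∈ A` into `A` maps the polynomials into `A`. -/
theorem der_aeval_mem {A : ValuationSubring K} (hk : ∀ c : k, algebraMap k K c ∈ A) {x : σ → K}
    (hx : ∀ i, x i ∈ A) {δ : Derivation k K K} (hδ : ∀ i, δ (x i) ∈ A) (P : MvPolynomial σ k) :
    δ (aeval x P) ∈ A := by
  induction P using MvPolynomial.induction_on with
  | C a =>
    rw [aeval_C, Derivation.map_algebraMap]
    exact zero_mem A
  | add p q hp hq =>
    rw [map_add, map_add]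
    exact add_mem hp hq
  | mul_X p n hp =>
    rw [map_mul, aeval_X, Derivation.leibniz, smul_eq_mul, smul_eq_mul]
    exact add_mem (mul_mem (aeval_mem hk hx p) (hδ n)) (mul_mem (hx n) hp)

/-- Quotient rule: `δ(p/q) = (δp)/q - p (δq)/q^2`. -/
theorem der_div_mem {A : ValuationSubring K} {δ : Derivation k K K} {p q : K} (hp : p ∈ A)
    (hq : q⁻¹ ∈ A) (hδp : δ p ∈ A) (hδq : δ q ∈ A) : δ (p / q) ∈ A := by
  rw [div_eq_mul_inv, Derivation.leibniz, Derivation.leibniz_inv, smul_eq_mul, smul_eq_mul,
    smul_eq_mul]
  exact add_mem (mul_mem hp (mul_mem (neg_mem (pow_mem hq 2)) hδq)) (mul_mem hq hδp)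

/-- General transfer: if every derivation that maps the `y_j` into `A` maps the `x_i` into `A`, and
`A` is etale over `k[x]`, then `A` is etale over `k[y]`. -/
theorem EtaleAt.transfer' {A : ValuationSubring K} {x : σ → K} {y : τ → K} (h : EtaleAt k A x)
    (hy : ∀ j, y j ∈ A)
    (ht : ∀ δ : Derivation k K K, (∀ j, δ (y j) ∈ A) → ∀ i, δ (x i) ∈ A) :
    EtaleAt k A y :=
  ⟨hy, fun δ hδ => h.2 δ (ht δ hδ)⟩

/-- D4 (transfer): if the `x_i` are polynomials in the `y_j ∈ A` with denominators that are units of
`A`, and `A` is etale over `k[x]`, then `A` is etale over `k[y]`. -/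
theorem EtaleAt.transfer {A : ValuationSubring K} (hk : ∀ c : k, algebraMap k K c ∈ A) {x : σ → K}
    {y : τ → K} (h : EtaleAt k A x) (hy : ∀ j, y j ∈ A)
    (ht : ∀ i, ∃ P Q : MvPolynomial τ k, (aeval y Q)⁻¹ ∈ A ∧ x i = aeval y P / aeval y Q) :
    EtaleAt k A y := by
  refine EtaleAt.transfer' h hy fun δ hδ i => ?_
  obtain ⟨P, Q, hQ, hxi⟩ := ht i
  rw [hxi]
  exact der_div_mem (aeval_mem hk hy P) hQ (der_aeval_mem hk hy hδ P) (der_aeval_mem hk hy hδ Q)

end MP9a7843
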