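import Pool.Agent.Lib.MP_9a7843_ag_D.Ord
import Pool.Agent.Lib.MP_9a7843_ag_D.Der
import Pool.Agent.Lib.MP_9a7843_ag_D.Tr

/-!
# MP_9a7843_ag, block D, module Loc: the localisations of `k[x]` at principal prime ideals
-/

noncomputable section

open MvPolynomial Classical

namespace MP9a7843

variable {k : Type*} [Field k] {K : Type*} [Field K] [Algebra k K] {σ : Type*}

/-- `A` is the localisation of `k[x]` at the prime ideal `(π)`. -/
def IsLocAt (x : σ → K) (π : MvPolynomial σ k) (A : ValuationSubring K) : Prop :=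
  ∀ a : K, a ∈ A ↔ ∃ P Q : MvPolynomial σ k, ¬ π ∣ Q ∧ a = aeval x P / aeval x Q

variable {x : σ → K} {π π' : MvPolynomial σ k} {A B : ValuationSubring K}

/-- `P = P / 1`. -/
theorem IsLocAt.aeval_mem (h : IsLocAt x π A) (hπ : Irreducible π) (P : MvPolynomial σ k) :
    aeval x P ∈ A :=
  (h _).2 ⟨P, 1, hπ.not_dvd_one, by simp⟩

/-- `Q⁻¹ = 1 / Q ∈ A` if `π ∤ Q`. -/
theorem IsLocAt.val_eq_one (hx : AlgebraicIndependent k x) (h : IsLocAt x π A)
    (hπ : Irreducible π) {Q : MvPolynomial σ k} (hQ : ¬ π ∣ Q) : A.valuation (aeval x Q) = 1 := by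
  have hQ0 : Q ≠ 0 := fun h0 => hQ (h0 ▸ dvd_zero π)
  refine (val_eq_one_iff (aeval_ne_zero hx hQ0)).2 ⟨h.aeval_mem hπ Q, (h _).2 ⟨1, Q, hQ, by simp⟩⟩

/-- If `π ∣ P` and `P⁻¹ = R / Q`, `π ∤ Q`, then `Q = R P`, contradiction. -/
theorem IsLocAt.val_lt_one_iff (hx : AlgebraicIndependent k x) (h : IsLocAt x π A)
    (hπ : Irreducible π) (P : MvPolynomial σ k) : A.valuation (aeval x P) < 1 ↔ π ∣ P := by
  by_cases hP : P = 0
  · simp [hP]
  constructor
  · intro h1
    by_contra h2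
    rw [h.val_eq_one hx hπ h2] at h1
    exact lt_irrefl _ h1
  · intro h1
    rw [MP9a7843.val_lt_one_iff (aeval_ne_zero hx hP)]
    intro h2
    obtain ⟨R, Q, hQ, hRQ⟩ := (h _).1 h2
    have hQ0 : Q ≠ 0 := fun h0 => hQ (h0 ▸ dvd_zero π)
    have hQ1 := aeval_ne_zero hx hQ0
    have hP1 := aeval_ne_zero hx hP
    apply hQ
    have : Q = R * P := by
      apply aeval_inj hx
      rw [map_mul]
      field_simp at hRQ
      linear_combination hRQ
    rw [this]
    exact dvd_mul_of_dvd_right h1 R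

/-- `a ∈ m_A` iff `a = P / Q` with `π ∣ P`, `π ∤ Q`. -/
theorem IsLocAt.isUnif (hx : AlgebraicIndependent k x) (h : IsLocAt x π A) (hπ : Irreducible π) :
    IsUnif A (aeval x π) := by
  have hπ0 := aeval_ne_zero hx hπ.ne_zero
  have hlt : A.valuation (aeval x π) < 1 := (h.val_lt_one_iff hx hπ π).2 dvd_rfl
  refine ⟨hπ0, fun y => ⟨fun hy => ?_, fun hy => ?_⟩⟩
  · have hyA : y ∈ A := (A.valuation_le_one_iff y).1 hy.le
    obtain ⟨P, Q, hQ, rfl⟩ := (h _).1 hyA
    rw [map_div₀, h.val_eq_one hx hπ hQ, div_one, h.val_lt_one_iff hx hπ] at hy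
    obtain ⟨R, rfl⟩ := hy
    refine (h _).2 ⟨R, Q, hQ, ?_⟩
    rw [map_mul]
    have hQ0 : Q ≠ 0 := fun h0 => hQ (h0 ▸ dvd_zero π)
    have hQ1 := aeval_ne_zero hx hQ0
    field_simp
  · have h1 : A.valuation (y / aeval x π) ≤ 1 := (A.valuation_le_one_iff _).2 hy
    have h2 : A.valuation y = A.valuation (y / aeval x π) * A.valuation (aeval x π) := by
      rw [← map_mul, div_mul_cancel₀ _ hπ0]
    rw [h2]
    exact mul_lt_one_of_nonneg_of_lt_one_right h1 zero_le hlt

/-- The order is the multiplicity of `π`. -/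
theorem IsLocAt.ord_eq (hx : AlgebraicIndependent k x) (h : IsLocAt x π A) (hπ : Irreducible π)
    (n : ℕ) {Q : MvPolynomial σ k} (hQ : ¬ π ∣ Q) : ord A (aeval x (π ^ n * Q)) = n := by
  apply MP9a7843.ord_eq (h.isUnif hx hπ)
  have hπ0 := aeval_ne_zero hx hπ.ne_zero
  rw [map_mul, map_pow, zpow_natCast, mul_div_cancel_left₀ _ (pow_ne_zero n hπ0)]
  exact h.val_eq_one hx hπ hQ

theorem IsLocAt.associated (hx : AlgebraicIndependent k x) (h : IsLocAt x π A)
    (hπ : Irreducible π) (h' : IsLocAt x π' A) (hπ' : Irreducible π') : Associated π π' := by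
  have h1 : A.valuation (aeval x π) < 1 := (h.val_lt_one_iff hx hπ π).2 dvd_rfl
  have h2 := (h'.val_lt_one_iff hx hπ' π).1 h1
  exact ((hπ'.dvd_irreducible_iff_associated hπ).1 h2).symm

theorem IsLocAt.of_associated (h : IsLocAt x π A) (h' : Associated π π') : IsLocAt x π' A := by
  intro a
  rw [h a]
  simp only [h'.dvd_iff_dvd_left]

theorem IsLocAt.unique (h : IsLocAt x π A) (h' : IsLocAt x π B) : A = B := by
  ext a
  rw [h a, h' a]

/-- Every nonzero element of `A` is a unit times `π^n` (`π^n ∣ P`, `π^(n+1) ∤ P`;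
`isDVRof_of_isUnif`). -/
theorem IsLocAt.isDVRof (hx : AlgebraicIndependent k x) (h : IsLocAt x π A) (hπ : Irreducible π) :
    IsDVRof k A := by
  refine isDVRof_of_isUnif (fun c => ?_) (h.isUnif hx hπ) fun a ha ha0 => ?_
  · have := h.aeval_mem hπ (C c)
    rwa [aeval_C] at this
  · obtain ⟨P, Q, hQ, rfl⟩ := (h _).1 ha
    have hP : P ≠ 0 := by
      rintro rfl
      simp at ha0
    obtain ⟨n, R, hR, rfl⟩ := WfDvdMonoid.max_power_factor hP hπ
    refine ⟨n, ?_⟩
    have hπ0 := aeval_ne_zero hx hπ.ne_zero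
    rw [map_mul, map_pow, div_right_comm, mul_div_cancel_left₀ _ (pow_ne_zero n hπ0), map_div₀,
      h.val_eq_one hx hπ hQ, h.val_eq_one hx hπ hR, div_one]

/-- Quotient rule (`der_aeval_mem`, `der_div_mem`). -/
theorem IsLocAt.etaleAt (hx : AlgebraicIndependent k x) (h : IsLocAt x π A)
    (hπ : Irreducible π) : EtaleAt k A x := by
  have hk : ∀ c : k, algebraMap k K c ∈ A := (h.isDVRof hx hπ).1
  have hxA : ∀ i, x i ∈ A := fun i => by
    have := h.aeval_mem hπ (X i)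
    rwa [aeval_X] at this
  refine ⟨hxA, fun δ hδ a ha => ?_⟩
  obtain ⟨P, Q, hQ, rfl⟩ := (h _).1 ha
  have hQi : (aeval x Q)⁻¹ ∈ A := (h _).2 ⟨1, Q, hQ, by simp⟩
  exact der_div_mem (h.aeval_mem hπ P) hQi (der_aeval_mem hk hxA hδ P)
    (der_aeval_mem hk hxA hδ Q)

/-- D2' (converse of the cell lemma): `k[x]_(π)` is a valuation ring of `K`: `π` is prime
(the polynomial ring is factorial), and every nonzero element of `K` is a quotient of coprime
polynomials (`exists_frac_coprime`), at most one of which is divisible by `π`. -/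
theorem exists_isLocAt (hx : AlgebraicIndependent k x)
    (hg : IntermediateField.adjoin k (Set.range x) = ⊤) (hπ : Irreducible π) :
    ∃ A : ValuationSubring K, IsLocAt x π A := by
  have hp : Prime π := UniqueFactorizationMonoid.irreducible_iff_prime.1 hπ
  have hne : ∀ Q : MvPolynomial σ k, ¬ π ∣ Q → aeval x Q ≠ 0 := fun Q hQ =>
    aeval_ne_zero hx fun h0 => hQ (h0 ▸ dvd_zero π)
  refine ⟨{ carrier := {a | ∃ P Q : MvPolynomial σ k, ¬ π ∣ Q ∧ a = aeval x P / aeval x Q}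
            mul_mem' := ?_
            one_mem' := ⟨1, 1, hπ.not_dvd_one, by simp⟩
            add_mem' := ?_
            zero_mem' := ⟨0, 1, hπ.not_dvd_one, by simp⟩
            neg_mem' := ?_
            mem_or_inv_mem' := ?_ }, fun a => Iff.rfl⟩
  · rintro _ _ ⟨P, Q, hQ, rfl⟩ ⟨P', Q', hQ', rfl⟩
    refine ⟨P * P', Q * Q', fun h => (hp.dvd_or_dvd h).elim hQ hQ', ?_⟩
    rw [map_mul, map_mul, div_mul_div_comm]
  · rintro _ _ ⟨P, Q, hQ, rfl⟩ ⟨P', Q', hQ', rfl⟩
    refine ⟨P * Q' + Q * P', Q * Q', fun h => (hp.dvd_or_dvd h).elim hQ hQ', ?_⟩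
    rw [map_add, map_mul, map_mul, map_mul, div_add_div _ _ (hne Q hQ) (hne Q' hQ')]
  · rintro _ ⟨P, Q, hQ, rfl⟩
    refine ⟨-P, Q, hQ, ?_⟩
    rw [map_neg, neg_div]
  · intro a
    obtain ⟨P, Q, hQ, rfl⟩ := exists_frac hg a
    by_cases hP : P = 0
    · left
      exact ⟨0, 1, hπ.not_dvd_one, by simp [hP]⟩
    have hQ0 : Q ≠ 0 := by
      rintro rfl
      simp at hQ
    obtain ⟨m, R, hR, rfl⟩ := WfDvdMonoid.max_power_factor hP hπ
    obtain ⟨n, S, hS, rfl⟩ := WfDvdMonoid.max_power_factor hQ0 hπ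
    have hπ0 := aeval_ne_zero hx hπ.ne_zero
    have hR0 := hne R hR
    have hS0 := hne S hS
    rcases le_total n m with h | h
    · left
      refine ⟨π ^ (m - n) * R, S, hS, ?_⟩
      obtain ⟨l, rfl⟩ := Nat.exists_eq_add_of_le h
      rw [Nat.add_sub_cancel_left]
      simp only [map_mul, map_pow]
      field_simp
      ring
    · right
      refine ⟨π ^ (n - m) * S, R, hR, ?_⟩
      obtain ⟨l, rfl⟩ := Nat.exists_eq_add_of_le h
      rw [Nat.add_sub_cancel_left]
      simp only [map_mul, map_pow]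
      field_simp
      ring

end MP9a7843
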