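import Pool.Agent.Lib.MP_9a7843_ag_B.Base

/-!
# MP_9a7843_ag, block D, module Ord: orders along discrete valuation rings

Uniformizers (`IsUnif`), the order `ord`, and the criterion for a valuation ring to be discrete.
-/

noncomputable section

open Classical

namespace MP9a7843

section

variable {K : Type*} [Field K] {A : ValuationSubring K} {ϖ ϖ' x y : K}

/-- `v(x) = 1` iff `x` is a unit of `A` (`ValuationSubring.valuation_le_one_iff` for `x`, `x⁻¹`). -/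
theorem val_eq_one_iff (hx : x ≠ 0) : A.valuation x = 1 ↔ x ∈ A ∧ x⁻¹ ∈ A := by
  rw [← A.valuation_le_one_iff, ← A.valuation_le_one_iff, map_inv₀]
  have h0 : 0 < A.valuation x := zero_lt_iff.mpr ((Valuation.ne_zero_iff _).mpr hx)
  constructor
  · intro h
    rw [h]
    simp
  · rintro ⟨h1, h2⟩
    exact le_antisymm h1 ((inv_le_one₀ h0).mp h2)

/-- `v(x) < 1` iff `x⁻¹ ∉ A` (`x ≠ 0`). -/
theorem val_lt_one_iff (hx : x ≠ 0) : A.valuation x < 1 ↔ x⁻¹ ∉ A := by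
  have h0 : 0 < A.valuation x := zero_lt_iff.mpr ((Valuation.ne_zero_iff _).mpr hx)
  rw [← A.valuation_le_one_iff, map_inv₀, not_le, one_lt_inv₀ h0]

/-- `ϖ / ϖ = 1 ∈ A`. -/
theorem IsUnif.lt_one (h : IsUnif A ϖ) : A.valuation ϖ < 1 := by
  exact (h.2 ϖ).mpr (by rw [div_self h.1]; exact A.one_mem)

private theorem IsUnif.pos (h : IsUnif A ϖ) : 0 < A.valuation ϖ :=
  zero_lt_iff.mpr ((Valuation.ne_zero_iff _).mpr h.1)

private theorem IsUnif.val_le (h : IsUnif A ϖ) (hx : A.valuation x < 1) :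
    A.valuation x ≤ A.valuation ϖ := by
  have h1 := (A.valuation_le_one_iff _).mpr ((h.2 x).mp hx)
  rw [map_div₀] at h1
  exact (div_le_one₀ h.pos).mp h1

private theorem IsUnif.val_pow_iff (h : IsUnif A ϖ) {n : ℤ} :
    A.valuation (x / ϖ ^ n) = 1 ↔ A.valuation x = A.valuation ϖ ^ n := by
  rw [map_div₀, map_zpow₀, div_eq_one_iff_eq (zpow_ne_zero n h.pos.ne')]

/-- Both quotients `ϖ/ϖ'` and `ϖ'/ϖ` are in `A`. -/
theorem IsUnif.val_eq (h : IsUnif A ϖ) (h' : IsUnif A ϖ') : A.valuation ϖ = A.valuation ϖ' := by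
  exact le_antisymm (h'.val_le h.lt_one) (h.val_le h'.lt_one)

/-- If `x/ϖ^n` and `x/ϖ'^m` are units, `v(ϖ)^n = v(x) = v(ϖ)^m` (`IsUnif.val_eq`) so `m = n`, since
`v(ϖ) < 1` (`zpow_right_injective₀` or similar). -/
theorem ord_eq (h : IsUnif A ϖ) {n : ℤ} (hn : A.valuation (x / ϖ ^ n) = 1) : ord A x = n := by
  have hex : ∃ n : ℤ, ∃ ϖ : K, IsUnif A ϖ ∧ A.valuation (x / ϖ ^ n) = 1 := ⟨n, ϖ, h, hn⟩
  have h1 : ord A x = hex.choose := dif_pos hex
  obtain ⟨ϖ', h', hm⟩ := hex.choose_spec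
  rw [h1]
  rw [h'.val_pow_iff, h'.val_eq h] at hm
  rw [h.val_pow_iff] at hn
  exact zpow_right_injective₀ h.pos h.lt_one.ne (hm.symm.trans hn)

/-- `v(0) = 0 ≠ 1`. -/
theorem ord_zero : ord A (0 : K) = 0 := by
  refine dif_neg ?_
  rintro ⟨n, ϖ, -, h⟩
  rw [zero_div, map_zero] at h
  exact zero_ne_one h

/-- The order of a uniformizer. -/
theorem IsUnif.ord_self (h : IsUnif A ϖ) : ord A ϖ = 1 := by
  refine ord_eq h ?_
  rw [zpow_one, div_self h.1, map_one]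

end

section

variable {k : Type*} [Field k] {K : Type*} [Field K] [Algebra k K] {A : ValuationSubring K}
  {ϖ x y : K}

private theorem IsDVRof.exists_unif (hA : IsDVRof k A) :
    ∃ p : A, Irreducible p ∧ IsUnif A (p : K) := by
  have := hA.2
  obtain ⟨p, hp⟩ := IsDiscreteValuationRing.exists_irreducible A
  have hp0 : (p : K) ≠ 0 := fun h => hp.ne_zero (Subtype.ext h)
  have hmax : IsLocalRing.maximalIdeal A = Ideal.span {p} := hp.maximalIdeal_eq
  have hpm : A.valuation (p : K) < 1 := by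
    rw [← A.valuation_lt_one_iff, hmax]
    exact Ideal.mem_span_singleton_self p
  refine ⟨p, hp, hp0, fun x => ⟨fun hx => ?_, fun hx => ?_⟩⟩
  · have hxA : x ∈ A := (A.valuation_le_one_iff x).mp hx.le
    have h1 : (⟨x, hxA⟩ : A) ∈ IsLocalRing.maximalIdeal A := (A.valuation_lt_one_iff _).mpr hx
    rw [hmax, Ideal.mem_span_singleton] at h1
    obtain ⟨b, hb⟩ := h1
    have h2 : x = (p : K) * (b : K) := congrArg Subtype.val hb
    rw [h2, mul_div_cancel_left₀ _ hp0]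
    exact b.2
  · have h1 : x = (p : K) * (x / (p : K)) := (mul_div_cancel₀ _ hp0).symm
    rw [h1, map_mul]
    exact mul_lt_one_of_lt_of_le hpm ((A.valuation_le_one_iff _).mpr hx)

/-- A generator of the maximal ideal (`IsDiscreteValuationRing.exists_irreducible`). -/
theorem IsDVRof.exists_isUnif (hA : IsDVRof k A) : ∃ ϖ : K, IsUnif A ϖ := by
  obtain ⟨p, -, hp⟩ := hA.exists_unif
  exact ⟨p, hp⟩

/-- Every nonzero element is a unit times a power of `ϖ`. (For `x ∈ A`: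
`IsDiscreteValuationRing.associated_pow_irreducible`; otherwise `x⁻¹ ∈ A`.) -/
theorem IsDVRof.exists_pow (hA : IsDVRof k A) (h : IsUnif A ϖ) (hx : x ≠ 0) :
    ∃ n : ℤ, A.valuation (x / ϖ ^ n) = 1 := by
  have := hA.2
  obtain ⟨p, hp, hp'⟩ := hA.exists_unif
  have key : ∀ y : K, y ≠ 0 → y ∈ A → ∃ n : ℕ, A.valuation y = A.valuation ϖ ^ n := by
    intro y hy hyA
    have hy' : (⟨y, hyA⟩ : A) ≠ 0 := fun h => hy (congrArg Subtype.val h)
    obtain ⟨n, u, hu⟩ := IsDiscreteValuationRing.associated_pow_irreducible hy' hp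
    refine ⟨n, ?_⟩
    have h1 : y * ((u : A) : K) = (p : K) ^ n := congrArg Subtype.val hu
    have h2 : A.valuation ((u : A) : K) = 1 := (A.valuation_eq_one_iff _).mp u.isUnit
    rw [h.val_eq hp', ← map_pow, ← h1, map_mul, h2, mul_one]
  rcases A.mem_or_inv_mem x with hxA | hxA
  · obtain ⟨n, hn⟩ := key x hx hxA
    refine ⟨n, h.val_pow_iff.mpr ?_⟩
    rw [hn, zpow_natCast]
  · obtain ⟨n, hn⟩ := key _ (inv_ne_zero hx) hxA
    refine ⟨-n, h.val_pow_iff.mpr ?_⟩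
    rw [zpow_neg, zpow_natCast, ← hn, map_inv₀, inv_inv]

theorem IsDVRof.val_div_ord (hA : IsDVRof k A) (h : IsUnif A ϖ) (hx : x ≠ 0) :
    A.valuation (x / ϖ ^ ord A x) = 1 := by
  obtain ⟨n, hn⟩ := hA.exists_pow h hx
  rw [ord_eq h hn]
  exact hn

private theorem IsDVRof.val_ord (hA : IsDVRof k A) (h : IsUnif A ϖ) (hx : x ≠ 0) :
    A.valuation x = A.valuation ϖ ^ ord A x :=
  h.val_pow_iff.mp (hA.val_div_ord h hx)

theorem IsDVRof.ord_mul (hA : IsDVRof k A) (hx : x ≠ 0) (hy : y ≠ 0) :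
    ord A (x * y) = ord A x + ord A y := by
  obtain ⟨ϖ, h⟩ := hA.exists_isUnif
  refine ord_eq h (h.val_pow_iff.mpr ?_)
  rw [map_mul, hA.val_ord h hx, hA.val_ord h hy, zpow_add₀ h.pos.ne']

theorem IsDVRof.ord_one (hA : IsDVRof k A) : ord A (1 : K) = 0 := by
  obtain ⟨ϖ, h⟩ := hA.exists_isUnif
  refine ord_eq h (h.val_pow_iff.mpr ?_)
  rw [map_one, zpow_zero]

theorem IsDVRof.ord_neg (hA : IsDVRof k A) (x : K) : ord A (-x) = ord A x := by
  rcases eq_or_ne x 0 with rfl | hx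
  · rw [neg_zero]
  obtain ⟨ϖ, h⟩ := hA.exists_isUnif
  refine ord_eq h (h.val_pow_iff.mpr ?_)
  rw [Valuation.map_neg]
  exact hA.val_ord h hx

theorem IsDVRof.ord_inv (hA : IsDVRof k A) (x : K) : ord A x⁻¹ = -ord A x := by
  rcases eq_or_ne x 0 with rfl | hx
  · rw [inv_zero, ord_zero, neg_zero]
  obtain ⟨ϖ, h⟩ := hA.exists_isUnif
  refine ord_eq h (h.val_pow_iff.mpr ?_)
  rw [map_inv₀, hA.val_ord h hx, zpow_neg]

theorem IsDVRof.ord_div (hA : IsDVRof k A) (hx : x ≠ 0) (hy : y ≠ 0) :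
    ord A (x / y) = ord A x - ord A y := by
  rw [div_eq_mul_inv, hA.ord_mul hx (inv_ne_zero hy), hA.ord_inv]
  rfl

theorem IsDVRof.ord_pow (hA : IsDVRof k A) (x : K) (n : ℕ) : ord A (x ^ n) = n * ord A x := by
  rcases eq_or_ne x 0 with rfl | hx
  · rw [ord_zero, mul_zero]
    rcases Nat.eq_zero_or_pos n with rfl | hn
    · rw [pow_zero, hA.ord_one]
    · rw [zero_pow hn.ne', ord_zero]
  induction n with
  | zero => rw [pow_zero, hA.ord_one, Nat.cast_zero, zero_mul]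
  | succ n ih =>
    rw [pow_succ, hA.ord_mul (pow_ne_zero n hx) hx, ih]
    push_cast
    ring

theorem IsDVRof.ord_zpow (hA : IsDVRof k A) (x : K) (n : ℤ) : ord A (x ^ n) = n * ord A x := by
  cases n with
  | ofNat m =>
    rw [Int.ofNat_eq_natCast, zpow_natCast, hA.ord_pow]
  | negSucc m =>
    rw [zpow_negSucc, hA.ord_inv, hA.ord_pow, Int.negSucc_eq]
    push_cast
    ring

theorem IsDVRof.ord_prod (hA : IsDVRof k A) {ι : Type*} (s : Finset ι) (f : ι → K)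
    (hf : ∀ i ∈ s, f i ≠ 0) : ord A (∏ i ∈ s, f i) = ∑ i ∈ s, ord A (f i) := by
  induction s using Finset.induction_on with
  | empty => rw [Finset.prod_empty, Finset.sum_empty, hA.ord_one]
  | insert a s ha ih =>
    rw [Finset.prod_insert ha, Finset.sum_insert ha,
      hA.ord_mul (hf a (Finset.mem_insert_self a s))
        (Finset.prod_ne_zero_iff.mpr fun i hi => hf i (Finset.mem_insert_of_mem hi)),
      ih fun i hi => hf i (Finset.mem_insert_of_mem hi)]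

theorem IsDVRof.ord_nonneg_iff (hA : IsDVRof k A) (hx : x ≠ 0) : 0 ≤ ord A x ↔ x ∈ A := by
  obtain ⟨ϖ, h⟩ := hA.exists_isUnif
  rw [← A.valuation_le_one_iff, hA.val_ord h hx, zpow_le_one_iff_right_of_lt_one₀ h.pos h.lt_one]

theorem IsDVRof.ord_pos_iff (hA : IsDVRof k A) (hx : x ≠ 0) :
    0 < ord A x ↔ A.valuation x < 1 := by
  obtain ⟨ϖ, h⟩ := hA.exists_isUnif
  rw [hA.val_ord h hx, zpow_lt_one_iff_right_of_lt_one₀ h.pos h.lt_one]

theorem IsDVRof.ord_eq_zero_iff (hA : IsDVRof k A) (hx : x ≠ 0) :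
    ord A x = 0 ↔ A.valuation x = 1 := by
  obtain ⟨ϖ, h⟩ := hA.exists_isUnif
  rw [hA.val_ord h hx, zpow_eq_one_iff_right₀ h.pos.le h.lt_one.ne]

theorem IsDVRof.ord_eq_of_val (hA : IsDVRof k A) (h : A.valuation x = 1) : ord A x = 0 := by
  have hx : x ≠ 0 := by
    rintro rfl
    rw [map_zero] at h
    exact zero_ne_one h
  exact (hA.ord_eq_zero_iff hx).mpr h

theorem IsDVRof.isUnif_of_ord (hA : IsDVRof k A) (h : ord A x = 1) : IsUnif A x := by
  have hx : x ≠ 0 := by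
    rintro rfl
    rw [ord_zero] at h
    exact zero_ne_one h
  obtain ⟨ϖ, h'⟩ := hA.exists_isUnif
  have h1 := hA.val_ord h' hx
  rw [h, zpow_one] at h1
  refine ⟨hx, fun y => ?_⟩
  rw [h'.2 y, ← A.valuation_le_one_iff, ← A.valuation_le_one_iff, map_div₀, map_div₀, h1]

/-- Nonzero constants are units. -/
theorem IsDVRof.val_algebraMap (hA : IsDVRof k A) {c : k} (hc : c ≠ 0) :
    A.valuation (algebraMap k K c) = 1 := by
  refine (val_eq_one_iff ((map_ne_zero _).mpr hc)).mpr ⟨hA.1 c, ?_⟩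
  rw [← map_inv₀]
  exact hA.1 _

/-- `A` is not the whole field. -/
theorem IsDVRof.ne_top (hA : IsDVRof k A) : A ≠ ⊤ := by
  obtain ⟨ϖ, h⟩ := hA.exists_isUnif
  have h1 := (val_lt_one_iff h.1).mp h.lt_one
  rintro rfl
  exact h1 trivial

/-- Criterion: a valuation ring with a uniformizer `ϖ` such that every nonzero element of `A` is a
unit times a power of `ϖ`, is discrete.
(`IsDiscreteValuationRing.ofHasUnitMulPowIrreducibleFactorization` or
`IsDiscreteValuationRing.of_...`; `ϖ ∈ A` is not a unit of `A`.) -/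
theorem isDVRof_of_isUnif (hk : ∀ c : k, algebraMap k K c ∈ A) (h : IsUnif A ϖ)
    (hu : ∀ a ∈ A, a ≠ 0 → ∃ n : ℕ, A.valuation (a / ϖ ^ n) = 1) : IsDVRof k A := by
  have hm : ϖ ∈ A := (A.valuation_le_one_iff ϖ).mp h.lt_one.le
  refine ⟨hk, IsDiscreteValuationRing.ofHasUnitMulPowIrreducibleFactorization ?_⟩
  refine ⟨⟨ϖ, hm⟩, ⟨fun hun => ?_, fun a b hab => ?_⟩, fun {x} hx => ?_⟩
  · exact h.lt_one.ne ((A.valuation_eq_one_iff _).mp hun)
  · by_contra hcon
    push Not at hcon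
    have ha : A.valuation (a : K) < 1 :=
      lt_of_le_of_ne ((A.valuation_le_one_iff _).mpr a.2)
        fun h' => hcon.1 ((A.valuation_eq_one_iff _).mpr h')
    have hb : A.valuation (b : K) < 1 :=
      lt_of_le_of_ne ((A.valuation_le_one_iff _).mpr b.2)
        fun h' => hcon.2 ((A.valuation_eq_one_iff _).mpr h')
    have h1 : ϖ = (a : K) * (b : K) := congrArg Subtype.val hab
    have h2 : A.valuation ϖ ≤ A.valuation ϖ * A.valuation (b : K) := by
      conv_lhs => rw [h1, map_mul]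
      exact mul_le_mul_left (h.val_le ha) _
    have h3 : A.valuation ϖ * A.valuation (b : K) < A.valuation ϖ :=
      mul_lt_of_lt_one_right h.pos hb
    exact absurd h2 (not_le.mpr h3)
  · have hx' : (x : K) ≠ 0 := fun h' => hx (Subtype.ext h')
    obtain ⟨n, hn⟩ := hu x x.2 hx'
    refine ⟨n, ?_⟩
    have h1 : (x : K) / ϖ ^ n ≠ 0 := div_ne_zero hx' (pow_ne_zero n h.1)
    obtain ⟨h2, h3⟩ := (val_eq_one_iff h1).mp hn
    refine ⟨⟨⟨_, h2⟩, ⟨_, h3⟩, Subtype.ext ?_, Subtype.ext ?_⟩, Subtype.ext ?_⟩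
    · exact mul_inv_cancel₀ h1
    · exact inv_mul_cancel₀ h1
    · exact mul_div_cancel₀ _ (pow_ne_zero n h.1)

/-- D5: a discrete valuation ring is a maximal proper subring among the valuation rings.
(If `a ∈ B ∖ A` then `a = u ϖ^(-n)`, `n > 0`, so `ϖ⁻¹ = a ϖ^(n-1) u⁻¹ ∈ B` and `B ⊃ A[1/ϖ] = K`.) -/
theorem IsDVRof.eq_of_le (hA : IsDVRof k A) {B : ValuationSubring K} (hle : A ≤ B) (hB : B ≠ ⊤) :
    A = B := by
  refine le_antisymm hle fun b hb => ?_
  by_contra hbA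
  obtain ⟨ϖ, h⟩ := hA.exists_isUnif
  have hϖA : ϖ ∈ A := (A.valuation_le_one_iff ϖ).mp h.lt_one.le
  have hb0 : b ≠ 0 := by
    rintro rfl
    exact hbA A.zero_mem
  have hneg : ord A b < 0 := not_le.mp fun h' => hbA ((hA.ord_nonneg_iff hb0).mp h')
  have hinv : ϖ⁻¹ ∈ B := by
    have h1 : ϖ⁻¹ / b ∈ A := by
      refine (hA.ord_nonneg_iff (div_ne_zero (inv_ne_zero h.1) hb0)).mp ?_
      rw [hA.ord_div (inv_ne_zero h.1) hb0, hA.ord_inv, h.ord_self]
      omega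
    have h2 := B.mul_mem _ _ (hle h1) hb
    rwa [div_mul_cancel₀ _ hb0] at h2
  apply hB
  refine eq_top_iff.mpr fun x _ => ?_
  rcases eq_or_ne x 0 with rfl | hx
  · exact B.zero_mem
  have h1 : x * ϖ ^ (ord A x).natAbs ∈ A := by
    refine (hA.ord_nonneg_iff (mul_ne_zero hx (pow_ne_zero _ h.1))).mp ?_
    rw [hA.ord_mul hx (pow_ne_zero _ h.1), hA.ord_pow, h.ord_self]
    omega
  have h2 := B.mul_mem _ _ (hle h1) (pow_mem hinv (ord A x).natAbs)
  rwa [inv_pow, mul_inv_cancel_right₀ (pow_ne_zero _ h.1)] at h2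

end

end MP9a7843
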